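import Mathlib

/-!
# A weak Delta-system lemma, colourings, and convergent sequences in countable compact sets
-/

set_option autoImplicit false

open Topology Set Filter

namespace Pool.Agent.R816.Comb

theorem delta (m : ℕ) : ∀ L : ℕ → Finset ℕ, (∀ k, (L k).card ≤ m) →
    ∃ φ : ℕ → ℕ, StrictMono φ ∧ ∃ R : Finset ℕ, ∀ i j, i ≠ j → L (φ i) ∩ L (φ j) ⊆ R := by
  induction m with
  | zero =>
    intro L hL
    refine ⟨id, strictMono_id, ∅, fun i j _ => ?_⟩
    have h1 : L (id i) = ∅ := Finset.card_eq_zero.1 (Nat.le_zero.1 (hL _))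
    rw [h1]
    simp
  | succ m ih =>
    intro L hL
    by_cases hinf : ∃ r, {k | r ∈ L k}.Infinite
    · obtain ⟨r, hr⟩ := hinf
      obtain ⟨ψ, hψ, R, hR⟩ := ih (fun i => (L (Nat.nth (fun k => r ∈ L k) i)).erase r) (by
        intro i
        have h1 : r ∈ L (Nat.nth (fun k => r ∈ L k) i) := Nat.nth_mem_of_infinite hr i
        have h2 := Finset.card_erase_of_mem h1
        have h3 := hL (Nat.nth (fun k => r ∈ L k) i)
        omega)
      refine ⟨fun i => Nat.nth (fun k => r ∈ L k) (ψ i), (Nat.nth_strictMono hr).comp hψ,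
        insert r R, fun i j hij x hx => ?_⟩
      rw [Finset.mem_inter] at hx
      by_cases hxr : x = r
      · rw [hxr]
        exact Finset.mem_insert_self _ _
      · refine Finset.mem_insert_of_mem (hR i j hij ?_)
        rw [Finset.mem_inter, Finset.mem_erase, Finset.mem_erase]
        exact ⟨⟨hxr, hx.1⟩, hxr, hx.2⟩
    · push Not at hinf
      obtain ⟨f, _, hf⟩ := exists_seq_of_forall_finset_exists (fun _ : ℕ => True)
        (fun x y => x < y ∧ Disjoint (L x) (L y)) (by
          intro s _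
          have h1 : (⋃ r ∈ s.biUnion L, {k | r ∈ L k}).Finite :=
            Set.Finite.biUnion (Finset.finite_toSet _) fun r _ => by
              have := hinf r
              exact this
          obtain ⟨y, hy⟩ := (h1.union (Set.finite_Iic (s.sup id))).exists_notMem
          refine ⟨y, trivial, fun x hx => ?_⟩
          rw [Set.mem_union, not_or] at hy
          constructor
          · have h2 : x ≤ s.sup id := Finset.le_sup (f := id) hx
            exact h2.trans_lt (not_le.1 hy.2)
          · rw [Finset.disjoint_left]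
            intro z hz hz'
            refine hy.1 ?_
            simp only [Set.mem_iUnion]
            exact ⟨z, Finset.mem_biUnion.2 ⟨x, hx, hz⟩, hz'⟩)
      refine ⟨f, fun i j hij => (hf i j hij).1, ∅, fun i j hij => ?_⟩
      rcases lt_or_gt_of_ne hij with h | h
      · rw [Finset.disjoint_iff_inter_eq_empty.1 (hf i j h).2]
      · rw [Finset.inter_comm, Finset.disjoint_iff_inter_eq_empty.1 (hf j i h).2]

/-- A finite colouring which is injective on infinitely many of the given finite sets. -/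
theorem exists_coloring (m : ℕ) (L : ℕ → Finset ℕ) (hL : ∀ k, (L k).card ≤ m) :
    ∃ φ : ℕ → ℕ, StrictMono φ ∧ ∃ (Q : ℕ) (κ : ℕ → ℕ), (∀ n, κ n < Q) ∧
      ∀ i, Set.InjOn κ (L (φ i)) := by
  classical
  obtain ⟨φ, hφ, R, hR⟩ := delta m L hL
  let κ : ℕ → ℕ := fun n => if n ∈ R then m + 1 + n else
    if h : ∃ i, n ∈ L (φ i) then ((L (φ h.choose)).filter (· < n)).card else 0
  have hsmall : ∀ n ∉ R, κ n ≤ m := by
    intro n hn
    simp only [κ, if_neg hn]
    split_ifs with h
    · exact (Finset.card_filter_le _ _).trans (hL _)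
    · exact Nat.zero_le _
  refine ⟨φ, hφ, m + 1 + (R.sup id) + 1, κ, ?_, ?_⟩
  · intro n
    by_cases hn : n ∈ R
    · have h1 : n ≤ R.sup id := Finset.le_sup (f := id) hn
      simp only [κ, if_pos hn]
      omega
    · have := hsmall n hn
      omega
  · intro i n hn n' hn' h
    have hn0 : n ∈ L (φ i) := hn
    have hn0' : n' ∈ L (φ i) := hn'
    have hval : ∀ a ∈ L (φ i), a ∉ R → κ a = ((L (φ i)).filter (· < a)).card := by
      intro a ha haR
      have h1 : ∃ j, a ∈ L (φ j) := ⟨i, ha⟩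
      have h2 : h1.choose = i := by
        by_contra hne
        exact haR (hR _ _ hne (Finset.mem_inter.2 ⟨h1.choose_spec, ha⟩))
      simp only [κ, if_neg haR, dif_pos h1]
      rw [h2]
    have hlt : ∀ a ∈ L (φ i), ∀ b ∈ L (φ i), a < b →
        ((L (φ i)).filter (· < a)).card < ((L (φ i)).filter (· < b)).card := by
      intro a ha b hb hab
      refine Finset.card_lt_card ?_
      rw [Finset.ssubset_iff_of_subset]
      · exact ⟨a, by simp [ha, hab], by simp⟩
      · intro x hx
        rw [Finset.mem_filter] at hx ⊢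
        exact ⟨hx.1, hx.2.trans hab⟩
    by_cases h1 : n ∈ R
    · by_cases h2 : n' ∈ R
      · simp only [κ, if_pos h1, if_pos h2] at h
        omega
      · have h3 := hsmall n' h2
        rw [← h] at h3
        simp only [κ, if_pos h1] at h3
        omega
    · by_cases h2 : n' ∈ R
      · have h3 := hsmall n h1
        rw [h] at h3
        simp only [κ, if_pos h2] at h3
        omega
      · rw [hval n hn0 h1, hval n' hn0' h2] at h
        rcases lt_trichotomy n n' with h3 | h3 | h3
        · exact absurd h (hlt n hn0 n' hn0' h3).ne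
        · exact h3
        · exact absurd h (hlt n' hn0' n hn0 h3).ne'

/-- An infinite countable compact set contains a nontrivial convergent sequence. -/
theorem exists_seq {Y : Type} [TopologicalSpace Y] [T2Space Y] {K : Set Y} (hK : IsCompact K)
    (hc : K.Countable) (hinf : K.Infinite) :
    ∃ w ∈ K, ∃ s : ℕ → Y, (∀ n, s n ∈ K ∧ s n ≠ w) ∧ Tendsto s atTop (𝓝 w) := by
  obtain ⟨w, hw, hacc⟩ := hinf.exists_accPt_of_subset_isCompact hK subset_rfl
  have hc' : (K \ {w}).Countable := hc.mono sdiff_subset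
  have hne : (K \ {w}).Nonempty := (hinf.sdiff (Set.finite_singleton w)).nonempty
  obtain ⟨x, hx⟩ := hc'.exists_eq_range hne
  have hxw : ∀ i, w ≠ x i := by
    intro i h
    have : x i ∈ K \ {w} := by rw [hx]; exact mem_range_self i
    exact this.2 h.symm
  choose V W hV hW hwV hxW hVW using fun i => t2_separation (hxw i)
  have h1 : ∀ i, ∃ y ∈ K, y ≠ w ∧ ∀ k ≤ i, y ∈ V k := by
    intro i
    have h2 : (⋂ k ∈ Set.Iic i, V k) ∈ 𝓝 w :=
      (Filter.biInter_mem (Set.finite_Iic i)).2 fun k _ => (hV k).mem_nhds (hwV k)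
    have h3 := accPt_iff_nhds.1 hacc _ h2
    obtain ⟨y, ⟨hy1, hy2⟩, hy3⟩ := h3
    refine ⟨y, hy2, hy3, fun k hk => ?_⟩
    exact mem_iInter₂.1 hy1 k hk
  choose s hsK hsw hsV using h1
  refine ⟨w, hw, s, fun n => ⟨hsK n, hsw n⟩, ?_⟩
  by_contra hcon
  rw [tendsto_nhds] at hcon
  push Not at hcon
  obtain ⟨O, hO, hwO, hOf⟩ := hcon
  have hfreq : ∃ᶠ i in atTop, s i ∉ O := fun h => hOf (h.mono fun i hi => not_not.1 hi)
  have hne2 : (atTop ⊓ 𝓟 {i | s i ∉ O}).NeBot := frequently_iff_neBot.1 hfreq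
  obtain ⟨𝒰, h𝒰⟩ := Ultrafilter.exists_le (atTop ⊓ 𝓟 {i | s i ∉ O})
  have hKO : IsCompact (K ∩ Oᶜ) := hK.inter_right hO.isClosed_compl
  obtain ⟨z, hz, hlim⟩ := hKO.ultrafilter_le_nhds (𝒰.map s) (by
    rw [le_principal_iff]
    refine Filter.mem_map.2 ?_
    have h4 : {i | s i ∉ O} ∈ (𝒰 : Filter ℕ) :=
      h𝒰 (mem_inf_of_right (mem_principal_self _))
    filter_upwards [h4] with i hi
    exact ⟨hsK i, hi⟩)
  have hzw : z ≠ w := by
    rintro rfl
    exact hz.2 hwO
  have hz2 : z ∈ K \ {w} := ⟨hz.1, hzw⟩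
  rw [hx] at hz2
  obtain ⟨m, rfl⟩ := hz2
  have h5 : W m ∈ (𝒰 : Filter ℕ).map s := hlim ((hW m).mem_nhds (hxW m))
  have h6 : ∀ᶠ i in (𝒰 : Filter ℕ), s i ∈ V m := by
    have h7 : ∀ᶠ i in (atTop : Filter ℕ), s i ∈ V m := by
      filter_upwards [eventually_ge_atTop m] with i hi
      exact hsV i m hi
    exact h𝒰 (mem_inf_of_left h7)
  obtain ⟨i, hi1, hi2⟩ := (Filter.Eventually.and h5 h6).exists
  exact (Set.disjoint_left.1 (hVW m)) hi2 hi1

end Pool.Agent.R816.Comb
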