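import Mathlib

/-!
# Functions on large subspaces of Cantor cubes depend on countably many coordinates
-/

set_option autoImplicit false

open Topology Set Cardinal Filter

namespace Pool.Agent.R816.Dep

open Classical in
/-- restriction to a set of coordinates (extended by `false`) -/
noncomputable def rest {J : Type} (A : Set J) (y : J → Bool) : J → Bool :=
  fun j => if j ∈ A then y j else false

/-- the support -/
def supp {J : Type} (y : J → Bool) : Set J := {j | y j = true}

theorem rest_of_mem {J : Type} {A : Set J} {y : J → Bool} {j : J} (h : j ∈ A) :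
    rest A y j = y j := by
  unfold rest
  rw [if_pos h]

theorem rest_of_notMem {J : Type} {A : Set J} {y : J → Bool} {j : J} (h : j ∉ A) :
    rest A y j = false := by
  unfold rest
  rw [if_neg h]

theorem rest_congr {J : Type} {A : Set J} {y z : J → Bool} (h : ∀ j ∈ A, y j = z j) :
    rest A y = rest A z := by
  funext j
  by_cases hj : j ∈ A
  · rw [rest_of_mem hj, rest_of_mem hj, h j hj]
  · rw [rest_of_notMem hj, rest_of_notMem hj]

theorem supp_rest {J : Type} (A : Set J) (y : J → Bool) : supp (rest A y) ⊆ A := by
  intro j hj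
  by_contra h
  have h1 : rest A y j = true := hj
  rw [rest_of_notMem h] at h1
  exact absurd h1 (by simp)

theorem isCompact_supp {J : Type} (A : Set J) : IsCompact {z : J → Bool | supp z ⊆ A} := by
  have : {z : J → Bool | supp z ⊆ A} = ⋂ j ∈ Aᶜ, {z : J → Bool | z j = false} := by
    ext z
    simp only [mem_ofPred_eq, mem_iInter, mem_compl_iff]
    constructor
    · intro h j hj
      by_contra hc
      exact hj (h (by simpa [supp] using hc))
    · intro h j hj
      by_contra hc
      have h1 : z j = true := hj
      rw [h j hc] at h1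
      exact absurd h1 (by simp)
  rw [this]
  refine IsClosed.isCompact (isClosed_biInter fun j _ => ?_)
  exact isClosed_singleton.preimage (continuous_apply j)

section

variable {J : Type} {κ : Cardinal.{0}} {X : Set (J → Bool)} {g : (J → Bool) → ℝ}

theorem eps_dep (hκ : ℵ₀ < κ) (hX : ∀ y, #(supp y) < κ → y ∈ X)
    (hg : ∀ K ⊆ X, IsCompact K → ContinuousOn g K) {ε : ℝ} (hε : 0 < ε) :
    ∃ A : Set J, A.Countable ∧ ∀ x y : J → Bool, (supp x).Countable → (supp y).Countable →
      (∀ j ∈ A, x j = y j) → |g x - g y| ≤ ε := by
  by_contra hcon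
  push Not at hcon
  have hch : ∀ A : {A : Set J // A.Countable}, ∃ p : (J → Bool) × (J → Bool),
      (supp p.1).Countable ∧ (supp p.2).Countable ∧ (∀ j ∈ A.1, p.1 j = p.2 j) ∧
      ε < |g p.1 - g p.2| := by
    rintro ⟨A, hA⟩
    obtain ⟨x, y, h1, h2, h3, h4⟩ := hcon A hA
    exact ⟨(x, y), h1, h2, h3, h4⟩
  choose P hP1 hP2 hP3 hP4 using hch
  let s : ℕ → {A : Set J // A.Countable} := fun n => Nat.rec ⟨∅, countable_empty⟩
    (fun _ A => ⟨A.1 ∪ (supp (P A).1 ∪ supp (P A).2), A.2.union ((hP1 A).union (hP2 A))⟩) n
  have hs : ∀ n, (s (n + 1)).1 = (s n).1 ∪ (supp (P (s n)).1 ∪ supp (P (s n)).2) := fun n => rfl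
  have hmono : Monotone fun n => (s n).1 := monotone_nat_of_le_succ fun n => by
    rw [hs]
    exact subset_union_left
  set B : Set J := ⋃ n, (s n).1 with hB
  have hBc : B.Countable := countable_iUnion fun n => (s n).2
  have hK := isCompact_supp B
  have hKX : {z : J → Bool | supp z ⊆ B} ⊆ X := by
    intro z hz
    refine hX z (lt_of_le_of_lt ?_ hκ)
    exact Cardinal.le_aleph0_iff_set_countable.2 (hBc.mono hz)
  have hgK := hg _ hKX hK
  have hφ : ∀ n, (P (s n)).1 ∈ {z : J → Bool | supp z ⊆ B} := by
    intro n j hj
    refine mem_iUnion.2 ⟨n + 1, ?_⟩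
    rw [hs]
    exact Or.inr (Or.inl hj)
  have hψ : ∀ n, (P (s n)).2 ∈ {z : J → Bool | supp z ⊆ B} := by
    intro n j hj
    refine mem_iUnion.2 ⟨n + 1, ?_⟩
    rw [hs]
    exact Or.inr (Or.inr hj)
  obtain ⟨x, hx, hlim⟩ := hK.ultrafilter_le_nhds ((hyperfilter ℕ).map fun n => (P (s n)).1) (by
    rw [le_principal_iff]
    exact Filter.mem_map.2 (Filter.univ_mem' hφ))
  have h1 : Tendsto (fun n => (P (s n)).1) (hyperfilter ℕ : Filter ℕ) (𝓝 x) := hlim
  have h2 : Tendsto (fun n => (P (s n)).2) (hyperfilter ℕ : Filter ℕ) (𝓝 x) := by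
    rw [tendsto_pi_nhds] at h1 ⊢
    intro j
    refine (h1 j).congr' ?_
    by_cases hj : j ∈ B
    · obtain ⟨m, hm⟩ := mem_iUnion.1 hj
      have h3 : ∀ᶠ n in (hyperfilter ℕ : Filter ℕ), m ≤ n := by
        have h4 : ∀ᶠ n in (cofinite : Filter ℕ), m ≤ n := by
          rw [Nat.cofinite_eq_atTop]
          exact eventually_ge_atTop m
        exact hyperfilter_le_cofinite h4
      filter_upwards [h3] with n hn
      exact hP3 (s n) j (hmono hn hm)
    · refine Filter.univ_mem' fun n => ?_
      have h5 : ∀ z : J → Bool, supp z ⊆ B → z j = false := by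
        intro z hz
        by_contra hc
        exact hj (hz (by simpa [supp] using hc))
      change (P (s n)).1 j = (P (s n)).2 j
      rw [h5 _ (hφ n), h5 _ (hψ n)]
  have h3 : Tendsto (fun n => g (P (s n)).1) (hyperfilter ℕ : Filter ℕ) (𝓝 (g x)) :=
    (hgK x hx).tendsto.comp (tendsto_nhdsWithin_iff.2 ⟨h1, Filter.univ_mem' hφ⟩)
  have h4 : Tendsto (fun n => g (P (s n)).2) (hyperfilter ℕ : Filter ℕ) (𝓝 (g x)) :=
    (hgK x hx).tendsto.comp (tendsto_nhdsWithin_iff.2 ⟨h2, Filter.univ_mem' hψ⟩)
  have h5 : Tendsto (fun n => |g (P (s n)).1 - g (P (s n)).2|) (hyperfilter ℕ : Filter ℕ)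
      (𝓝 0) := by
    have := (h3.sub h4).abs
    simpa using this
  have h6 := (h5.eventually (gt_mem_nhds hε)).exists
  obtain ⟨n, hn⟩ := h6
  exact absurd hn (not_lt.2 (hP4 (s n)).le)

theorem dep_countable (hκ : ℵ₀ < κ) (hX : ∀ y, #(supp y) < κ → y ∈ X)
    (hg : ∀ K ⊆ X, IsCompact K → ContinuousOn g K) :
    ∃ A : Set J, A.Countable ∧ ∀ x y : J → Bool, (supp x).Countable → (supp y).Countable →
      (∀ j ∈ A, x j = y j) → g x = g y := by
  have h1 : ∀ n : ℕ, (0 : ℝ) < 1 / (n + 1) := fun n => Nat.one_div_pos_of_nat
  choose A hA hA2 using fun n => eps_dep hκ hX hg (h1 n)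
  refine ⟨⋃ n, A n, countable_iUnion hA, fun x y hx hy h => ?_⟩
  by_contra hne
  have h2 : 0 < |g x - g y| := abs_pos.2 (sub_ne_zero.2 hne)
  obtain ⟨n, hn⟩ := exists_nat_one_div_lt h2
  exact absurd (hA2 n x y hx hy fun j hj => h j (mem_iUnion.2 ⟨n, hj⟩)) (not_le.2 hn)

/-- **Dependency lemma.** -/
theorem dep (hκ : ℵ₀ < κ) (hJ : #J ≤ κ) (hX : ∀ y, #(supp y) < κ → y ∈ X)
    (hg : ∀ K ⊆ X, IsCompact K → ContinuousOn g K) :
    ∃ A : Set J, A.Countable ∧ ∀ y ∈ X, g y = g (rest A y) := by
  classical
  obtain ⟨A, hA, hdep⟩ := dep_countable hκ hX hg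
  refine ⟨A, hA, ?_⟩
  have key : ∀ c : Cardinal.{0}, ∀ y ∈ X, #(supp y) = c → g y = g (rest A y) := by
    intro c
    induction c using WellFoundedLT.induction with
    | ind c ih =>
    intro y hy hc
    rcases le_or_gt c ℵ₀ with h0 | h0
    · have hyc : (supp y).Countable := by
        rw [← Cardinal.le_aleph0_iff_set_countable, hc]
        exact h0
      exact hdep _ _ hyc (hA.mono (supp_rest _ _)) fun j hj => (rest_of_mem hj).symm
    · -- the uncountable case
      have hcκ : c ≤ κ := by
        rw [← hc]
        exact (Cardinal.mk_set_le _).trans hJ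
      let D : Set J := supp y \ A
      have hD : c = #D := by
        have h1 : #(supp y) ≤ #D + #A := by
          refine (Cardinal.mk_le_mk_of_subset (t := D ∪ A) ?_).trans (Cardinal.mk_union_le _ _)
          intro j hj
          by_cases hjA : j ∈ A
          · exact Or.inr hjA
          · exact Or.inl ⟨hj, hjA⟩
        rw [hc] at h1
        have h2 : #D ≤ c := by
          rw [← hc]
          exact Cardinal.mk_le_mk_of_subset sdiff_subset
        refine le_antisymm ?_ h2
        by_contra hlt
        rw [not_le] at hlt
        have h3 : #D + #A < c := Cardinal.add_lt_of_lt h0.le hlt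
          ((Cardinal.le_aleph0_iff_set_countable.2 hA).trans_lt h0)
        exact absurd h1 (not_le.2 h3)
      have hDinf : ℵ₀ ≤ #D := by
        rw [← hD]
        exact h0.le
      have := Cardinal.noMaxOrder hDinf
      obtain ⟨e⟩ : Nonempty (D ≃ (#D).ord.ToType) :=
        Cardinal.eq.1 (Cardinal.mk_ord_toType _).symm
      -- small support
      have hsmall : ∀ a : (#D).ord.ToType, ∀ z : J → Bool,
          (supp z ⊆ A ∪ {j | ∃ h : j ∈ D, e ⟨j, h⟩ < a}) → #(supp z) < c := by
        intro a z hz
        refine ((Cardinal.mk_le_mk_of_subset hz).trans (Cardinal.mk_union_le _ _)).trans_lt ?_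
        refine Cardinal.add_lt_of_lt h0.le
          ((Cardinal.le_aleph0_iff_set_countable.2 hA).trans_lt h0) ?_
        have h1 : #({j | ∃ h : j ∈ D, e ⟨j, h⟩ < a} : Set J) ≤ #(Iio a) := by
          refine Cardinal.mk_le_of_injective
            (f := fun j : ({j | ∃ h : j ∈ D, e ⟨j, h⟩ < a} : Set J) =>
              (⟨e ⟨j.1, j.2.choose⟩, j.2.choose_spec⟩ : Iio a)) ?_
          intro j j' h
          have h2 := congrArg Subtype.val h
          have h3 := e.injective h2
          exact Subtype.ext (congrArg (fun t : D => (t : J)) h3)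
        refine h1.trans_lt ?_
        have h4 := Cardinal.mk_Iio_lt a (by rw [Cardinal.mk_ord_toType, Ordinal.type_toType])
        rw [Cardinal.mk_ord_toType] at h4
        exact h4.trans_eq hD.symm
      -- the compact set of truncations
      let K : Set (J → Bool) := {z | (∀ j, y j = false → z j = false) ∧ (∀ j ∈ A, z j = y j) ∧
        ∀ d d' : D, e d' ≤ e d → z d = true → z d' = true}
      have hKclosed : IsClosed K := by
        have h1 : IsClosed {z : J → Bool | ∀ j, y j = false → z j = false} := by
          simp only [ofPred_forall]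
          exact isClosed_iInter fun j => isClosed_iInter fun _ =>
            isClosed_singleton.preimage (continuous_apply j)
        have h2 : IsClosed {z : J → Bool | ∀ j ∈ A, z j = y j} := by
          simp only [ofPred_forall]
          exact isClosed_iInter fun j => isClosed_iInter fun _ =>
            isClosed_singleton.preimage (continuous_apply j)
        have h3 : IsClosed {z : J → Bool | ∀ d d' : D, e d' ≤ e d → z d = true → z d' = true} := by
          simp only [ofPred_forall]
          refine isClosed_iInter fun d => isClosed_iInter fun d' => isClosed_iInter fun _ => ?_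
          have h5 : IsClosed {z : J → Bool | z d = true → z d' = true} := by
            have h6 : {z : J → Bool | z d = true → z d' = true} =
                {z | z d = false} ∪ {z : J → Bool | z d' = true} := by
              ext z
              simp only [mem_ofPred_eq, mem_union]
              cases z d <;> simp
            rw [h6]
            exact (isClosed_singleton.preimage (continuous_apply _)).union
              (isClosed_singleton.preimage (continuous_apply _))
          exact h5
        exact h1.inter (h2.inter h3)
      have hKcomp : IsCompact K := hKclosed.isCompact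
      have hKsmall : ∀ z ∈ K, z ≠ y → #(supp z) < c := by
        rintro z ⟨h1, h2, h3⟩ hzy
        obtain ⟨j, hj⟩ := Function.ne_iff.1 hzy
        have hyj : y j = true := by
          by_contra hc'
          have : y j = false := by simpa using hc'
          exact hj (by rw [h1 j this, this])
        have hzj : z j = false := by
          by_contra hc'
          have : z j = true := by simpa using hc'
          exact hj (by rw [this, hyj])
        have hjA : j ∉ A := fun h => hj (h2 j h)
        refine hsmall (e ⟨j, hyj, hjA⟩) z ?_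
        intro i hi
        by_cases hiA : i ∈ A
        · exact Or.inl hiA
        · right
          have hyi : y i = true := by
            by_contra hc'
            have h4 := h1 i (by simpa using hc')
            have h5 : z i = true := hi
            rw [h4] at h5
            exact absurd h5 (by simp)
          refine ⟨⟨hyi, hiA⟩, ?_⟩
          by_contra hc'
          have h4 := h3 ⟨i, hyi, hiA⟩ ⟨j, hyj, hjA⟩ (not_lt.1 hc') hi
          change z j = true at h4
          rw [hzj] at h4
          exact absurd h4 (by simp)
      have hKX : K ⊆ X := by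
        intro z hz
        by_cases hzy : z = y
        · rw [hzy]
          exact hy
        · exact hX z ((hKsmall z hz hzy).trans_le hcκ)
      have hyK : y ∈ K := by
        refine ⟨fun j hj => hj, fun j _ => rfl, fun d d' _ _ => d'.2.1⟩
      have hgy := hg K hKX hKcomp y hyK
      by_contra hne
      have h1 : {t : ℝ | t ≠ g (rest A y)} ∈ 𝓝 (g y) := isOpen_ne.mem_nhds hne
      have h2 := hgy h1
      rw [mem_map, mem_nhdsWithin] at h2
      obtain ⟨O, hO, hyO, hOK⟩ := h2
      obtain ⟨F, u, hu, hF⟩ := isOpen_pi_iff.1 hO y hyO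
      -- a strict upper bound for the finitely many relevant elements
      obtain ⟨a, ha⟩ : ∃ a : (#D).ord.ToType, ∀ j ∈ F, ∀ h : j ∈ D, e ⟨j, h⟩ < a := by
        have h3 : (Set.range fun j : {j : D // (j : J) ∈ F} => e j.1).Finite := by
          have : Finite {j : D // (j : J) ∈ F} := by
            refine Finite.of_injective (fun j : {j : D // (j : J) ∈ F} => (⟨j.1.1, j.2⟩ : F)) ?_
            intro i j h
            exact Subtype.ext (Subtype.ext (congrArg (fun t : F => (t : J)) h))
          exact Set.finite_range _
        have hne : Nonempty (#D).ord.ToType := by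
          rw [← Cardinal.mk_ne_zero_iff, Cardinal.mk_ord_toType]
          exact (Cardinal.aleph0_pos.trans_le hDinf).ne'
        obtain ⟨b, hb⟩ := h3.bddAbove
        obtain ⟨a, ha⟩ := exists_gt b
        exact ⟨a, fun j hj h => (hb ⟨⟨⟨j, h⟩, hj⟩, rfl⟩).trans_lt ha⟩
      let S : Set J := A ∪ {j | ∃ h : j ∈ D, e ⟨j, h⟩ < a}
      have hzK : rest S y ∈ K := by
        refine ⟨fun j hj => ?_, fun j hj => rest_of_mem (Or.inl hj), ?_⟩
        · by_cases hjS : j ∈ S
          · rw [rest_of_mem hjS, hj]
          · exact rest_of_notMem hjS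
        · intro d d' hdd hd
          have h3 : (d : J) ∈ S := supp_rest S y hd
          have h4 : e d < a := by
            rcases h3 with h3 | ⟨_, h3⟩
            · exact absurd h3 d.2.2
            · exact h3
          have h5 : (d' : J) ∈ S := Or.inr ⟨d'.2, hdd.trans_lt h4⟩
          rw [rest_of_mem h5]
          exact d'.2.1
      have hzO : rest S y ∈ O := by
        refine hF ?_
        intro j hj
        have h3 : rest S y j = y j := by
          by_cases hjS : j ∈ S
          · exact rest_of_mem hjS
          · rw [rest_of_notMem hjS]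
            by_contra hc'
            have hyj : y j = true := by
              by_contra hc2
              exact hc' (by simpa using (Eq.symm (by simpa using hc2 : y j = false)))
            have hjA : j ∉ A := fun h => hjS (Or.inl h)
            exact hjS (Or.inr ⟨⟨hyj, hjA⟩, ha j hj ⟨hyj, hjA⟩⟩)
        rw [h3]
        exact (hu j hj).2
      have hzs : #(supp (rest S y)) < c := hsmall a _ (supp_rest S y)
      have h3 := ih _ hzs _ (hKX hzK) rfl
      have h4 : rest A (rest S y) = rest A y := rest_congr fun j hj => rest_of_mem (Or.inl hj)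
      rw [h4] at h3
      exact hOK ⟨hzO, hzK⟩ h3
  exact fun y hy => key _ y hy rfl

end

end Pool.Agent.R816.Dep
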