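import Pool.Agent.R816.FTGComp
import Pool.Agent.R816.Dep
import Pool.Agent.R816.Comb

/-!
# A closed subgroup of a free topological group which is a `k_R`-space need not be a `k_R`-space
-/

set_option autoImplicit false

open Topology Set Cardinal Filter
open Pool.Agent.R816.FTG Pool.Agent.R816.Dep

namespace Pool.Agent.R816.ClosedSub

/-- `k_R`-spaces -/
def IsKR (Y : Type) [TopologicalSpace Y] : Prop :=
  ∀ f : Y → ℝ, (∀ K : Set Y, IsCompact K → ContinuousOn f K) → Continuous f

theorem comp_kr {Y Z : Type} [TopologicalSpace Y] [TopologicalSpace Z] [CompactSpace Z]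
    {f : Y → ℝ} (hf : ∀ K : Set Y, IsCompact K → ContinuousOn f K) {h : Z → Y}
    (hh : Continuous h) : Continuous fun z => f (h z) :=
  (hf (range h) (isCompact_range hh)).comp_continuous hh fun z => mem_range_self z

/-! ### The space -/

open Classical in
/-- the evaluation points -/
noncomputable def e (n : ℕ) : Set ℕ → Bool := fun A => decide (n ∈ A)

theorem e_iff {n : ℕ} {A : Set ℕ} : e n A = true ↔ n ∈ A := by
  unfold e
  simp

theorem e_injective : Function.Injective e := by
  intro n m h
  have h1 : e n {n} = e m {n} := congrFun h _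
  have h2 : e n {n} = true := e_iff.2 rfl
  rw [h1, e_iff] at h2
  exact h2.symm

/-- the underlying set of the space -/
def XS : Set (Set ℕ → Bool) := {x | #(supp x) < 𝔠 ∨ ∃ n, x = e n}

/-- the space -/
abbrev X : Type := XS

theorem mem_XS_of_subset {B : Set (Set ℕ)} (hB : B.Countable) {x : Set ℕ → Bool}
    (hx : supp x ⊆ B) : x ∈ XS :=
  Or.inl ((Cardinal.le_aleph0_iff_set_countable.2 (hB.mono hx)).trans_lt aleph0_lt_continuum)

/-- the evaluation points as points of the space -/
noncomputable def e' (n : ℕ) : X := ⟨e n, Or.inr ⟨n, rfl⟩⟩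

theorem e'_injective : Function.Injective e' := fun _ _ h => e_injective (congrArg Subtype.val h)

theorem isClopen_coord {P : Bool → Bool → Prop} (A B : Set ℕ) :
    IsClopen {z : X | P (z.1 A) (z.1 B)} := by
  have h1 : Continuous fun z : X => (z.1 A, z.1 B) :=
    ((continuous_apply A).comp continuous_subtype_val).prodMk
      ((continuous_apply B).comp continuous_subtype_val)
  exact (isClopen_discrete {p : Bool × Bool | P p.1 p.2}).preimage h1

instance : TotallySeparatedSpace X := by
  rw [totallySeparatedSpace_iff_exists_isClopen]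
  intro x y hxy
  have h1 : x.1 ≠ y.1 := fun h => hxy (Subtype.ext h)
  obtain ⟨A, hA⟩ := Function.ne_iff.1 h1
  refine ⟨{z : X | z.1 A = x.1 A}, isClopen_coord (P := fun a _ => a = x.1 A) A A, rfl, ?_⟩
  intro h
  exact hA (Eq.symm h)

instance : T35Space X := Topology.IsEmbedding.subtypeVal.t35Space

section extres

variable (B : Set (Set ℕ))

open Classical in
/-- extension by `false` -/
noncomputable def ext0 (z : B → Bool) : Set ℕ → Bool := fun a => if h : a ∈ B then z ⟨a, h⟩ else false

theorem supp_ext0 (z : B → Bool) : supp (ext0 B z) ⊆ B := by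
  intro a ha
  by_contra h
  have h1 : ext0 B z a = true := ha
  unfold ext0 at h1
  rw [dif_neg h] at h1
  exact absurd h1 (by simp)

theorem ext0_continuous : Continuous (ext0 B) := by
  refine continuous_pi fun a => ?_
  by_cases h : a ∈ B
  · have : (fun z : B → Bool => ext0 B z a) = fun z => z ⟨a, h⟩ := by
      funext z
      unfold ext0
      rw [dif_pos h]
    rw [this]
    exact continuous_apply _
  · have : (fun z : B → Bool => ext0 B z a) = fun _ => false := by
      funext z
      unfold ext0
      rw [dif_neg h]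
    rw [this]
    exact continuous_const

variable {B}

/-- extension by `false` as a map to the space -/
noncomputable def ext (hB : B.Countable) (z : B → Bool) : X :=
  ⟨ext0 B z, mem_XS_of_subset hB (supp_ext0 B z)⟩

theorem ext_continuous (hB : B.Countable) : Continuous (ext hB) :=
  (ext0_continuous B).subtype_mk _

/-- restriction -/
def res (B : Set (Set ℕ)) (x : X) : B → Bool := fun b => x.1 b

theorem res_continuous : Continuous (res B) :=
  continuous_pi fun _ => (continuous_apply _).comp continuous_subtype_val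

theorem ext_res (hB : B.Countable) (x : X) : (ext hB (res B x)).1 = rest B x.1 := by
  funext a
  change ext0 B (res B x) a = _
  unfold ext0 rest res
  split_ifs <;> rfl

end extres

/-! ### The free topological group is a `k_R`-space -/

/-- letters with a given code -/
def letter {Y : Type} (c : Option Bool) (x : Y) : Lam Y :=
  match c with
  | none => Sum.inr ()
  | some true => Sum.inl (Sum.inl x)
  | some false => Sum.inl (Sum.inr x)

theorem letter_continuous {Y : Type} [TopologicalSpace Y] (c : Option Bool) :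
    Continuous (letter c : Y → Lam Y) := by
  rcases c with _ | _ | _
  · exact continuous_const
  · exact continuous_inl.comp continuous_inr
  · exact continuous_inl.comp continuous_inl

theorem exists_letter {Y : Type} [Nonempty Y] (a : Lam Y) :
    ∃ (c : Option Bool) (x : Y), a = letter c x := by
  rcases a with (a | a) | a
  · exact ⟨some true, a, rfl⟩
  · exact ⟨some false, a, rfl⟩
  · exact ⟨none, Classical.arbitrary Y, rfl⟩

theorem map_lam {Y Z : Type} (φ : Y → Z) (c : Option Bool) (x : Y) :
    FTG.map φ (lam (letter c x)) = lam (letter c (φ x)) := by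
  rcases c with _ | _ | _
  · exact map_one _
  · change FTG.map φ (gen x)⁻¹ = (gen (φ x))⁻¹
    rw [map_inv, map_gen]
  · exact map_gen φ x

theorem map_q {Y Z : Type} (φ : Y → Z) (n : ℕ) (c : Fin n → Option Bool) (x : Fin n → Y) :
    FTG.map φ (q n fun i => letter (c i) (x i)) = q n fun i => letter (c i) (φ (x i)) := by
  unfold q
  rw [map_list_prod, List.map_ofFn]
  congr 2
  funext i
  exact map_lam φ (c i) (x i)

instance : Nonempty X := ⟨e' 0⟩

/-- the rows of a point of `2^(n × P(ω))` -/
def row {n : ℕ} (y : Fin n × Set ℕ → Bool) (i : Fin n) : Set ℕ → Bool := fun A => y (i, A)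

theorem card_row {n : ℕ} (y : Fin n × Set ℕ → Bool) (i : Fin n) : #(supp (row y i)) ≤ #(supp y) := by
  refine Cardinal.mk_le_of_injective (f := fun A : supp (row y i) => (⟨(i, A.1), A.2⟩ : supp y)) ?_
  intro A A' h
  have := congrArg (fun t : supp y => t.1.2) h
  exact Subtype.ext this

open Classical in
/-- a function on words, in coordinates -/
noncomputable def gfun (f : FTG X → ℝ) (n : ℕ) (c : Fin n → Option Bool)
    (y : Fin n × Set ℕ → Bool) : ℝ :=
  if h : ∀ i, row y i ∈ XS then f (q n fun i => letter (c i) (⟨row y i, h i⟩ : X)) else 0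

theorem gfun_dep {f : FTG X → ℝ} (hf : ∀ K : Set (FTG X), IsCompact K → ContinuousOn f K) (n : ℕ)
    (c : Fin n → Option Bool) : ∃ A : Set (Fin n × Set ℕ), A.Countable ∧
      ∀ y, (∀ i, row y i ∈ XS) → gfun f n c y = gfun f n c (rest A y) := by
  refine dep (κ := 𝔠) (X := {y | ∀ i, row y i ∈ XS}) aleph0_lt_continuum ?_ ?_ ?_
  · rw [Cardinal.mk_prod, Cardinal.lift_id, Cardinal.lift_id, Cardinal.mk_fin, mk_set_nat]
    exact Cardinal.mul_le_of_le aleph0_le_continuum (Cardinal.natCast_lt_aleph0.le.trans aleph0_le_continuum) le_rfl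
  · intro y hy i
    exact Or.inl ((card_row y i).trans_lt hy)
  · intro K hK hKc
    rw [continuousOn_iff_continuous_domRestrict]
    have : CompactSpace K := isCompact_iff_compactSpace.1 hKc
    have h1 : K.domRestrict (gfun f n c) = fun z : K =>
        f (q n fun i => letter (c i) (⟨row z.1 i, hK z.2 i⟩ : X)) := by
      funext z
      have h2 : ∀ i, row z.1 i ∈ XS := hK z.2
      change gfun f n c z.1 = _
      unfold gfun
      rw [dif_pos h2]
    rw [h1]
    refine comp_kr hf ((q_continuous n).comp (continuous_pi fun i => ?_))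
    refine (letter_continuous (c i)).comp (Continuous.subtype_mk ?_ _)
    exact continuous_pi fun A => (continuous_apply (i, A)).comp continuous_subtype_val

theorem isKR_FTG : IsKR (FTG X) := by
  intro f hf
  choose A hA hAg using gfun_dep hf
  let B : Set (Set ℕ) := ⋃ n, ⋃ c, Prod.snd '' (A n c)
  have hB : B.Countable := countable_iUnion fun n => countable_iUnion fun c => (hA n c).image _
  have key : ∀ w : FTG X, f w = f (FTG.map (ext hB) (FTG.map (res B) w)) := by
    intro w
    obtain ⟨n, u, rfl⟩ := q_surj w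
    choose c x hcx using fun i => exists_letter (u i)
    have hu : u = fun i => letter (c i) (x i) := funext hcx
    rw [hu, FTG.map_map, map_q]
    let y : Fin n × Set ℕ → Bool := fun p => (x p.1).1 p.2
    let y' : Fin n × Set ℕ → Bool := fun p => (ext hB (res B (x p.1))).1 p.2
    have h1 : gfun f n c y = f (q n fun i => letter (c i) (x i)) := by
      have h2 : ∀ i, row y i ∈ XS := fun i => (x i).2
      unfold gfun
      rw [dif_pos h2]
      rfl
    have h1' : gfun f n c y' = f (q n fun i => letter (c i) (ext hB (res B (x i)))) := by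
      have h2 : ∀ i, row y' i ∈ XS := fun i => (ext hB (res B (x i))).2
      unfold gfun
      rw [dif_pos h2]
      rfl
    have h3 : rest (A n c) y = rest (A n c) y' := by
      refine rest_congr fun p hp => ?_
      have h4 : p.2 ∈ B := mem_iUnion.2 ⟨n, mem_iUnion.2 ⟨c, p, hp, rfl⟩⟩
      change (x p.1).1 p.2 = (ext hB (res B (x p.1))).1 p.2
      rw [ext_res, rest_of_mem h4]
    rw [← h1, ← h1', hAg n c y (fun i => (x i).2), hAg n c y' (fun i => (ext hB (res B (x i))).2), h3]
  have hTS : TotallySeparatedSpace (B → Bool) := inferInstance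
  have h1 : Continuous fun v : FTG (B → Bool) => f (FTG.map (ext hB) v) := by
    refine continuous_of_q fun n => ?_
    exact comp_kr hf ((map_continuous (ext_continuous hB)).comp (q_continuous n))
  have h2 : f = fun w => f (FTG.map (ext hB) (FTG.map (res B) w)) := funext key
  rw [h2]
  exact h1.comp (map_continuous res_continuous)

/-! ### The closed subgroup -/

/-- the subgroup generated by the evaluation points -/
noncomputable def H : Subgroup (FTG X) := Subgroup.closure (gen '' (range e'))

/-- A general criterion. -/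
theorem isClosed_closure {Y : Type} [TopologicalSpace Y] [TotallySeparatedSpace Y] {E : Set Y}
    (hE : ∀ x ∉ E, ∃ U : Set Y, IsClopen U ∧ x ∈ U ∧ ∀ y ∈ E, y ∉ U) :
    IsClosed (Subgroup.closure ((gen : Y → FTG Y) '' E) : Set (FTG Y)) := by
  classical
  let ρ : Set Y → Y → FTG Y := fun U y => if y ∈ U then 1 else gen y
  have hρ : ∀ U, IsClopen U → Continuous (ρ U) := by
    intro U hU
    refine Continuous.if (fun y hy => ?_) continuous_const (continuous_gen Y)
    have : frontier {y | y ∈ U} = ∅ := hU.frontier_eq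
    rw [this] at hy
    exact absurd hy (by simp)
  have h1 : (Subgroup.closure ((gen : Y → FTG Y) '' E) : Set (FTG Y)) =
      ⋂ U ∈ {U : Set Y | IsClopen U ∧ ∀ y ∈ E, y ∉ U}, {w | lift (ρ U) w = w} := by
    ext w
    simp only [mem_iInter, SetLike.mem_coe, mem_ofPred_eq]
    constructor
    · intro hw U hU
      have h2 : Subgroup.closure ((gen : Y → FTG Y) '' E) ≤
          (lift (ρ U)).eqLocus (MonoidHom.id (FTG Y)) := by
        rw [Subgroup.closure_le]
        rintro _ ⟨x, hx, rfl⟩
        change lift _ (gen x) = gen x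
        rw [lift_gen]
        simp [ρ, hU.2 x hx]
      exact h2 hw
    · intro h
      rw [mem_closure]
      intro x hx
      by_contra hxE
      obtain ⟨U, hU, hxU, hUE⟩ := hE x hxE
      have h3 := h U ⟨hU, hUE⟩
      have h4 := eq_of_delete (S := Uᶜ) (f := ρ U) (fun y hy => by
          have hy' : y ∉ U := hy
          simp [ρ, hy'])
        (fun y hy => by
          have hy' : y ∈ U := not_not.1 hy
          simp [ρ, hy']) h3 x hx
      exact h4 hxU
  rw [h1]
  refine isClosed_biInter fun U hU => ?_
  exact isClosed_eq (lift_continuous (hρ U hU.1)) continuous_id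

theorem isClosed_H : IsClosed (H : Set (FTG X)) := by
  refine isClosed_closure fun x hx => ?_
  have hcard : #(supp x.1) < 𝔠 := by
    rcases x.2 with h | ⟨n, hn⟩
    · exact h
    · exact absurd ⟨n, Subtype.ext hn.symm⟩ hx
  obtain ⟨A, hA⟩ : ∃ A : Set ℕ, x.1 A = x.1 Aᶜ := by
    by_contra hcon
    push Not at hcon
    have h1 : (Set.univ : Set (Set ℕ)) ⊆ supp x.1 ∪ compl '' supp x.1 := by
      intro A _
      by_cases h : x.1 A = true
      · exact Or.inl h
      · right
        refine ⟨Aᶜ, ?_, compl_compl A⟩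
        have h2 := hcon A
        have h3 : x.1 A = false := by simpa using h
        rw [h3] at h2
        exact (by simpa using h2.symm : x.1 Aᶜ = true)
    have h2 : #(Set.univ : Set (Set ℕ)) < 𝔠 := by
      refine ((Cardinal.mk_le_mk_of_subset h1).trans (Cardinal.mk_union_le _ _)).trans_lt ?_
      exact Cardinal.add_lt_of_lt aleph0_le_continuum hcard (Cardinal.mk_image_le.trans_lt hcard)
    rw [Cardinal.mk_univ, mk_set_nat] at h2
    exact lt_irrefl _ h2
  refine ⟨{z : X | z.1 A = z.1 Aᶜ}, isClopen_coord (P := fun a b => a = b) A Aᶜ, hA, ?_⟩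
  rintro _ ⟨n, rfl⟩ h
  have h1 : e n A = e n Aᶜ := h
  by_cases hn : n ∈ A
  · have h2 : e n A = true := e_iff.2 hn
    rw [h1, e_iff] at h2
    exact h2 hn
  · have h2 : e n Aᶜ = true := e_iff.2 hn
    rw [← h1, e_iff] at h2
    exact hn h2

theorem gen_mem (n : ℕ) : gen (e' n) ∈ H := Subgroup.subset_closure ⟨_, mem_range_self n, rfl⟩

theorem gen_injective {Y : Type} : Function.Injective (gen : Y → FTG Y) :=
  FreeGroup.of_injective

/-! ### The subgroup is not discrete -/

theorem exists_mem_nhds {U : Set (FTG X)} (hU : U ∈ 𝓝 (1 : FTG X)) :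
    ∃ n m : ℕ, n ≠ m ∧ (gen (e' n))⁻¹ * gen (e' m) ∈ U := by
  obtain ⟨V, hV, hVU⟩ := exists_nhds_one_split4 hU
  have h1 : ∀ x : X, {y : X | (gen x)⁻¹ * gen y ∈ V ∧ (gen y)⁻¹ * gen x ∈ V} ∈ 𝓝 x := by
    intro x
    have hc1 : Continuous fun y : X => (gen x)⁻¹ * gen y :=
      continuous_const.mul (continuous_gen X)
    have hc2 : Continuous fun y : X => (gen y)⁻¹ * gen x :=
      (continuous_gen X).inv.mul continuous_const
    refine Filter.inter_mem (hc1.continuousAt.preimage_mem_nhds ?_)
      (hc2.continuousAt.preimage_mem_nhds ?_)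
    · simpa using hV
    · simpa using hV
  have h2 : ∀ n, ∃ F : Finset (Set ℕ), ∀ z : X, (∀ A ∈ F, z.1 A = e n A) →
      (gen (e' n))⁻¹ * gen z ∈ V ∧ (gen z)⁻¹ * gen (e' n) ∈ V := by
    intro n
    obtain ⟨O, hO, hOV⟩ := mem_nhds_subtype _ _ _ |>.1 (h1 (e' n))
    obtain ⟨O', hO', hO'o, heO'⟩ := _root_.mem_nhds_iff.1 hO
    obtain ⟨F, u, hu, hF⟩ := isOpen_pi_iff.1 hO'o _ heO'
    refine ⟨F, fun z hz => ?_⟩
    refine hOV (hO' (hF ?_))
    intro A hA
    rw [hz A hA]
    exact (hu A hA).2
  choose F hF using h2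
  let S : Set (Set ℕ) := ⋃ n, (F n : Set (Set ℕ))
  have hS : S.Countable := countable_iUnion fun n => (F n).countable_toSet
  let y : ℕ → X := fun n => ext hS (res S (e' n))
  have hy : ∀ n, (gen (e' n))⁻¹ * gen (y n) ∈ V ∧ (gen (y n))⁻¹ * gen (e' n) ∈ V := by
    intro n
    refine hF n _ fun A hA => ?_
    rw [ext_res, rest_of_mem (mem_iUnion.2 ⟨n, hA⟩)]
    rfl
  obtain ⟨z, -, hlim⟩ := (isCompact_univ (X := S → Bool)).ultrafilter_le_nhds
    ((hyperfilter ℕ).map fun n => res S (e' n)) (by simp)
  have h3 : Tendsto y (hyperfilter ℕ : Filter ℕ) (𝓝 (ext hS z)) :=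
    ((ext_continuous hS).tendsto z).comp hlim
  have h4 : {n | (gen (ext hS z))⁻¹ * gen (y n) ∈ V ∧ (gen (y n))⁻¹ * gen (ext hS z) ∈ V} ∈
      (hyperfilter ℕ : Filter ℕ) := h3 (h1 (ext hS z))
  have h5 : ({n | (gen (ext hS z))⁻¹ * gen (y n) ∈ V ∧ (gen (y n))⁻¹ * gen (ext hS z) ∈ V}
      : Set ℕ).Infinite := by
    intro hfin
    have h6 := hyperfilter_le_cofinite hfin.compl_mem_cofinite
    have h7 := Filter.inter_mem h4 h6
    obtain ⟨n, hn1, hn2⟩ := Ultrafilter.nonempty_of_mem h7
    exact hn2 hn1
  obtain ⟨n, hn⟩ := h5.nonempty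
  obtain ⟨m, hm, hnm⟩ := h5.exists_gt n
  refine ⟨n, m, (ne_of_lt hnm), ?_⟩
  have h8 := hVU (hy n).1 hn.2 hm.1 (hy m).2
  convert h8 using 1
  group

/-! ### Compact subsets of the subgroup are finite -/

theorem map_ne_one {Y Z : Type} {k : Y → Z} {w : FTG Y} (hk : Set.InjOn k (letters w))
    (hw : w ≠ 1) : FTG.map k w ≠ 1 := by
  classical
  intro h
  rcases isEmpty_or_nonempty Y with hY | hY
  · refine hw ?_
    have h1 : FTG.map k w = FTG.map (fun y : Y => k y) w := rfl
    have h2 : (MonoidHom.id (FTG Y)) = 1 := hom_ext fun x => (hY.false x).elim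
    exact DFunLike.congr_fun h2 w
  · have h1 : FTG.map (fun y => Function.invFunOn k (letters w) (k y)) w = w :=
      map_fix fun x hx => hk.leftInvOn_invFunOn hx
    rw [← FTG.map_map, h, _root_.map_one] at h1
    exact hw h1.symm

theorem finite_of_isCompact {K : Set (FTG X)} (hK : IsCompact K) (hKH : K ⊆ H) : K.Finite := by
  classical
  by_contra hinf
  -- lengths are bounded
  have hlen : ∃ N, ∀ w ∈ K, len w ≤ N := by
    have hTS : TotallySeparatedSpace (Set ℕ → Bool) := inferInstance
    have h1 : IsCompact (FTG.map (Subtype.val : X → Set ℕ → Bool) '' K) :=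
      hK.image (map_continuous continuous_subtype_val)
    obtain ⟨N, hN⟩ := bounded_of_isCompact h1
    refine ⟨N, fun w hw => ?_⟩
    have h2 := hN _ (mem_image_of_mem _ hw)
    have h3 : FTG.map (Function.invFun (Subtype.val : X → Set ℕ → Bool))
        (FTG.map (Subtype.val : X → Set ℕ → Bool) w) = w := by
      rw [FTG.map_map]
      exact map_fix fun x _ => Function.leftInverse_invFun Subtype.val_injective x
    rw [← h3]
    exact (len_map _ _).trans h2
  obtain ⟨N, hN⟩ := hlen
  -- the subgroup is countable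
  have hHc : (H : Set (FTG X)).Countable := by
    have h1 : H ≤ (FTG.map e').range := by
      unfold H
      rw [Subgroup.closure_le]
      rintro _ ⟨_, ⟨n, rfl⟩, rfl⟩
      exact ⟨gen n, map_gen e' n⟩
    have h2 : Countable (FTG ℕ) := by
      refine Function.Surjective.countable (f := fun L : List (ℕ × Bool) =>
        (FreeGroup.mk L : FTG ℕ)) ?_
      intro w
      exact ⟨_, mk_word w⟩
    refine (Set.countable_range (FTG.map e')).mono ?_
    intro w hw
    exact h1 hw
  obtain ⟨w, hw, s, hs, hlim⟩ := Comb.exists_seq hK (hHc.mono hKH) hinf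
  let u : ℕ → FTG X := fun k => w⁻¹ * s k
  have hu1 : ∀ k, u k ≠ 1 := by
    intro k h
    exact (hs k).2 (inv_mul_eq_one.1 h).symm
  have huH : ∀ k, u k ∈ H := fun k => mul_mem (inv_mem (hKH hw)) (hKH (hs k).1)
  have hulen : ∀ k, len (u k) ≤ N + N := by
    intro k
    refine (len_mul _ _).trans (add_le_add ?_ (hN _ (hs k).1))
    rw [len_inv]
    exact hN _ hw
  have hulim : Tendsto u atTop (𝓝 1) := by
    have h1 : Tendsto u atTop (𝓝 (w⁻¹ * w)) := hlim.const_mul w⁻¹
    rwa [inv_mul_cancel] at h1
  let idx : X → ℕ := Function.invFun e'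
  have hidx : ∀ n, idx (e' n) = n := Function.leftInverse_invFun e'_injective
  let L : ℕ → Finset ℕ := fun k => (letters (u k)).image idx
  obtain ⟨φ, hφ, Q, κ, hκQ, hκ⟩ := Comb.exists_coloring (N + N) L (fun k =>
    Finset.card_image_le.trans ((card_letters _).trans (hulen k)))
  -- the colouring of the space
  let kk : X → (Fin Q → Bool) := fun x t => x.1 {n | κ n = t}
  have hkk : IsLocallyConstant kk := by
    rw [IsLocallyConstant.iff_continuous]
    exact continuous_pi fun t => (continuous_apply _).comp continuous_subtype_val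
  have hopen : IsOpen (FTG.map kk ⁻¹' {1}) := by
    refine isOpen_lift (G := FTG (Fin Q → Bool)) (f := fun x => gen (kk x)) ?_ {1}
    exact hkk.comp gen
  have hev : ∀ᶠ k in atTop, FTG.map kk (u k) = 1 :=
    hulim (hopen.mem_nhds (by simp))
  obtain ⟨k0, hk0⟩ := eventually_atTop.1 hev
  have h1 := hk0 (φ k0) (hφ.id_le k0)
  refine map_ne_one ?_ (hu1 (φ k0)) h1
  have hE : ∀ x ∈ letters (u (φ k0)), ∃ n, x = e' n := by
    intro x hx
    obtain ⟨n, hn⟩ := mem_closure.1 (huH (φ k0)) x hx
    exact ⟨n, hn.symm⟩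
  intro x hx y hy hxy
  obtain ⟨n, rfl⟩ := hE x hx
  obtain ⟨m, rfl⟩ := hE y hy
  have hnL : n ∈ L (φ k0) := by
    have := Finset.mem_image_of_mem idx hx
    rwa [hidx] at this
  have hmL : m ∈ L (φ k0) := by
    have := Finset.mem_image_of_mem idx hy
    rwa [hidx] at this
  have h2 : κ n = κ m := by
    have h3 := congrFun hxy ⟨κ n, hκQ n⟩
    have h4 : e n {a | κ a = κ n} = true := e_iff.2 rfl
    have h5 : e m {a | κ a = κ n} = true := by
      rw [← h4]
      exact h3.symm
    exact (e_iff.1 h5 : κ m = κ n).symm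
  rw [hκ k0 hnL hmL h2]

theorem not_isKR_H : ¬ IsKR H := by
  classical
  intro h
  have h1 : Continuous (fun x : H => if x = 1 then (1 : ℝ) else 0) := by
    refine h _ fun K hK => ?_
    have h2 : K.Finite := by
      have h3 : (Subtype.val '' K : Set (FTG X)).Finite := by
        refine finite_of_isCompact (hK.image continuous_subtype_val) ?_
        rintro _ ⟨x, _, rfl⟩
        exact x.2
      exact h3.of_finite_image Subtype.val_injective.injOn
    exact h2.continuousOn _
  have h2 : IsOpen ({1} : Set H) := by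
    have h3 := (isOpen_lt (continuous_const (y := (1 / 2 : ℝ))) h1)
    convert h3 using 1
    ext x
    simp only [mem_singleton_iff, mem_ofPred_eq]
    constructor
    · intro hx
      rw [if_pos hx]
      norm_num
    · intro hx
      by_contra hne
      rw [if_neg hne] at hx
      norm_num at hx
  obtain ⟨U, hU, hUH⟩ := isOpen_induced_iff.1 h2
  have h3 : (1 : FTG X) ∈ U := by
    have h4 : (1 : H) ∈ (Subtype.val ⁻¹' U : Set H) := by
      rw [hUH]
      rfl
    exact h4
  obtain ⟨n, m, hnm, hmem⟩ := exists_mem_nhds (hU.mem_nhds h3)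
  have h5 : (gen (e' n))⁻¹ * gen (e' m) ∈ H := mul_mem (inv_mem (gen_mem n)) (gen_mem m)
  have h6 : (⟨_, h5⟩ : H) ∈ (Subtype.val ⁻¹' U : Set H) := hmem
  rw [hUH, mem_singleton_iff] at h6
  have h7 : (gen (e' n))⁻¹ * gen (e' m) = 1 := congrArg Subtype.val h6
  exact hnm (e'_injective (gen_injective (inv_mul_eq_one.1 h7)))

end Pool.Agent.R816.ClosedSub
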