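import Mathlib

/-!
# The free topological group of a zero-dimensional compact space

The topology of `F(M)` for a compact totally separated space `M` is the colimit topology of the sets
of words of bounded length.
-/

set_option autoImplicit false

open Topology Set

namespace Pool.Agent.R816.FTG

/-- The free topological group `F(X)` in the sense of Markov, as an abstract group: the free group
on the set `X`. -/
def FTG (X : Type) : Type := FreeGroup X

instance (X : Type) : Group (FTG X) := inferInstanceAs (Group (FreeGroup X))

/-- The inclusion of the generators. -/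
def gen {X : Type} (x : X) : FTG X := (FreeGroup.of x : FreeGroup X)

/-- The topology of `F(X)`: the finest group topology on the free group on `X` for which the
inclusion of the generators is continuous. -/
instance instTop (X : Type) [TopologicalSpace X] : TopologicalSpace (FTG X) :=
  sInf {t : TopologicalSpace (FTG X) |
    @IsTopologicalGroup (FTG X) t _ ∧ @Continuous X (FTG X) _ t gen}

instance (X : Type) [TopologicalSpace X] : IsTopologicalGroup (FTG X) :=
  topologicalGroup_sInf fun _ ht => ht.1

theorem continuous_gen (X : Type) [TopologicalSpace X] : Continuous (gen : X → FTG X) := by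
  rw [continuous_sInf_rng]
  exact fun t ht => ht.2

/-- the homomorphism extending a map on the generators -/
def lift {X G : Type} [Group G] (f : X → G) : FTG X →* G := (FreeGroup.lift f : FreeGroup X →* G)

@[simp] theorem lift_gen {X G : Type} [Group G] (f : X → G) (x : X) : lift f (gen x) = f x :=
  FreeGroup.lift_apply_of

theorem lift_mk {X G : Type} [Group G] (f : X → G) (L : List (X × Bool)) :
    lift f (FreeGroup.mk L : FreeGroup X) =
      (L.map fun p => cond p.2 (f p.1) (f p.1)⁻¹).prod := FreeGroup.lift_mk

theorem lift_continuous {X G : Type} [TopologicalSpace X] [Group G] [TopologicalSpace G]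
    [IsTopologicalGroup G] {f : X → G} (hf : Continuous f) : Continuous (lift f) := by
  refine continuous_sInf_dom (t := TopologicalSpace.induced (lift f) inferInstance) ⟨?_, ?_⟩
    continuous_induced_dom
  · exact topologicalGroup_induced (lift f)
  · rw [continuous_induced_rng]
    have : (lift f ∘ gen) = f := funext fun x => lift_gen f x
    rw [this]
    exact hf

/-- Preimages under extensions of locally constant maps are open. -/
theorem isOpen_lift {X G : Type} [TopologicalSpace X] [Group G] {f : X → G}
    (hf : IsLocallyConstant f) (S : Set G) : IsOpen (lift f ⁻¹' S) := by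
  let _ : TopologicalSpace G := ⊥
  have : DiscreteTopology G := ⟨rfl⟩
  exact (isOpen_discrete S).preimage (lift_continuous hf.continuous)

/-- functoriality -/
def map {X Y : Type} (f : X → Y) : FTG X →* FTG Y := lift fun x => gen (f x)

@[simp] theorem map_gen {X Y : Type} (f : X → Y) (x : X) : map f (gen x) = gen (f x) :=
  lift_gen _ _

theorem map_continuous {X Y : Type} [TopologicalSpace X] [TopologicalSpace Y] {f : X → Y}
    (hf : Continuous f) : Continuous (map f) :=
  lift_continuous ((continuous_gen Y).comp hf)

theorem hom_ext {X G : Type} [Group G] {φ ψ : FTG X →* G} (h : ∀ x, φ (gen x) = ψ (gen x)) :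
    φ = ψ := FreeGroup.ext_hom _ _ h

theorem map_map {X Y Z : Type} (f : X → Y) (g : Y → Z) (w : FTG X) :
    map g (map f w) = map (fun x => g (f x)) w := by
  have : (map g).comp (map f) = map (fun x => g (f x)) := hom_ext fun x => by simp
  exact DFunLike.congr_fun this w

section letters

/-- the reduced word -/
noncomputable def word {X : Type} (w : FTG X) : List (X × Bool) :=
  @FreeGroup.toWord X (Classical.decEq X) w

open Classical in
/-- the set of letters of the reduced word -/
noncomputable def letters {X : Type} (w : FTG X) : Finset X := ((word w).map Prod.fst).toFinset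

/-- the length of the reduced word -/
noncomputable def len {X : Type} (w : FTG X) : ℕ := (word w).length

theorem mk_word {X : Type} (w : FTG X) : (FreeGroup.mk (word w) : FreeGroup X) = w :=
  @FreeGroup.mk_toWord X (Classical.decEq X) w

theorem mem_letters {X : Type} {w : FTG X} {x : X} : x ∈ letters w ↔ ∃ p ∈ word w, p.1 = x := by
  classical
  unfold letters
  simp

theorem card_letters {X : Type} (w : FTG X) : (letters w).card ≤ len w := by
  classical
  unfold letters len
  refine (List.toFinset_card_le _).trans ?_
  simp

theorem len_mk {X : Type} (L : List (X × Bool)) : len (FreeGroup.mk L : FreeGroup X) ≤ L.length :=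
  @FreeGroup.norm_mk_le X L (Classical.decEq X)

theorem lift_congr {X G : Type} [Group G] {f g : X → G} {w : FTG X}
    (h : ∀ x ∈ letters w, f x = g x) : lift f w = lift g w := by
  have hw := mk_word w
  rw [← hw, lift_mk, lift_mk]
  congr 1
  refine List.map_congr_left fun p hp => ?_
  rw [h p.1 (mem_letters.2 ⟨p, hp, rfl⟩)]

theorem lift_gen_self {X : Type} (w : FTG X) : lift (gen : X → FTG X) w = w := by
  have : lift (gen : X → FTG X) = MonoidHom.id (FTG X) := hom_ext fun x => by simp
  rw [this]
  rfl

theorem map_fix {X : Type} {c : X → X} {w : FTG X} (h : ∀ x ∈ letters w, c x = x) :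
    map c w = w := by
  have h1 : map c w = lift gen w := lift_congr fun x hx => by rw [h x hx]
  rw [h1, lift_gen_self]

theorem len_map {X Y : Type} (f : X → Y) (w : FTG X) : len (map f w) ≤ len w := by
  have h1 : map f w = (FreeGroup.mk ((word w).map fun p => (f p.1, p.2)) : FreeGroup Y) := by
    conv_lhs => rw [← mk_word w]
    have : map f = (FreeGroup.map f : FreeGroup X →* FreeGroup Y) := by
      refine hom_ext fun x => ?_
      rw [map_gen]
      exact (FreeGroup.map.of).symm
    rw [this]
    rfl
  rw [h1]
  refine (len_mk _).trans ?_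
  rw [List.length_map]
  exact le_rfl

theorem len_mul {X : Type} (v w : FTG X) : len (v * w) ≤ len v + len w :=
  @FreeGroup.norm_mul_le X (Classical.decEq X) v w

theorem len_inv {X : Type} (w : FTG X) : len w⁻¹ = len w :=
  @FreeGroup.norm_inv_eq X (Classical.decEq X) w

theorem len_one {X : Type} : len (1 : FTG X) = 0 := @FreeGroup.norm_one X (Classical.decEq X)

theorem len_gen {X : Type} (x : X) : len (gen x) = 1 := by
  have := @FreeGroup.norm_of X (Classical.decEq X) x
  exact this

/-- deleting a letter -/
theorem eq_of_delete {X : Type} {S : Set X} {w : FTG X} {f : X → FTG X}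
    (hf : ∀ x ∈ S, f x = gen x) (hf' : ∀ x ∉ S, f x = 1) (hw : lift f w = w) :
    ∀ x ∈ letters w, x ∈ S := by
  classical
  have key : ∀ L : List (X × Bool), lift f (FreeGroup.mk L : FreeGroup X) =
      (FreeGroup.mk (L.filter fun p => p.1 ∈ S) : FreeGroup X) := by
    intro L
    rw [lift_mk]
    induction L with
    | nil => rfl
    | cons p L ih =>
      rw [List.map_cons, List.prod_cons, ih]
      by_cases hp : p.1 ∈ S
      · rw [List.filter_cons_of_pos (by simpa using hp), hf _ hp]
        have h2 : (FreeGroup.mk (p :: L.filter fun p => decide (p.1 ∈ S)) : FreeGroup X) =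
            FreeGroup.mk [p] * FreeGroup.mk (L.filter fun p => decide (p.1 ∈ S)) := by
          rw [FreeGroup.mul_mk]
          rfl
        rw [h2]
        congr 1
        obtain ⟨x, b⟩ := p
        cases b
        · change (gen x : FTG X)⁻¹ = _
          exact FreeGroup.inv_mk
        · rfl
      · rw [List.filter_cons_of_neg (by simpa using hp), hf' _ hp]
        have h1 : (bif p.2 then (1 : FTG X) else (1 : FTG X)⁻¹) = 1 := by
          cases p.2 <;> simp
        rw [h1]
        exact one_mul (M := FTG X) _
  intro x hx
  by_contra hxS
  obtain ⟨p, hp, rfl⟩ := mem_letters.1 hx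
  have h1 := key (word w)
  rw [mk_word, hw] at h1
  have h2 : len w ≤ ((word w).filter fun p => p.1 ∈ S).length := by
    conv_lhs => rw [h1]
    exact len_mk _
  have h3 : ((word w).filter fun p => p.1 ∈ S).length < (word w).length := by
    refine List.length_filter_lt_length_iff_exists.2 ⟨p, hp, ?_⟩
    simpa using hxS
  exact absurd h2 (not_le.2 h3)

theorem mem_closure {X : Type} {S : Set X} {w : FTG X} :
    w ∈ Subgroup.closure ((gen : X → FTG X) '' S) ↔ ∀ x ∈ letters w, x ∈ S := by
  classical
  constructor
  · intro hw
    refine eq_of_delete (f := fun x => if x ∈ S then gen x else 1) (fun x hx => by simp [hx])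
      (fun x hx => by simp [hx]) ?_
    have h1 : Subgroup.closure ((gen : X → FTG X) '' S) ≤
        (lift (fun x => if x ∈ S then gen x else 1 : X → FTG X)).eqLocus (MonoidHom.id (FTG X)) := by
      rw [Subgroup.closure_le]
      rintro _ ⟨x, hx, rfl⟩
      change lift _ (gen x) = gen x
      rw [lift_gen]
      simp [hx]
    exact h1 hw
  · intro h
    have h1 : ∀ L : List (X × Bool), (∀ p ∈ L, p.1 ∈ S) →
        (FreeGroup.mk L : FreeGroup X) ∈ Subgroup.closure ((gen : X → FTG X) '' S) := by
      intro L
      induction L with
      | nil => intro _; exact one_mem _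
      | cons p L ih =>
        intro hL
        have : (FreeGroup.mk (p :: L) : FreeGroup X) = FreeGroup.mk [p] * FreeGroup.mk L := by
          rw [FreeGroup.mul_mk]
          rfl
        rw [this]
        refine mul_mem ?_ (ih fun p hp => hL p (List.mem_cons_of_mem _ hp))
        have h2 : gen p.1 ∈ Subgroup.closure ((gen : X → FTG X) '' S) :=
          Subgroup.subset_closure ⟨p.1, hL p List.mem_cons_self, rfl⟩
        obtain ⟨x, b⟩ := p
        cases b
        · have h3 : (FreeGroup.mk [(x, false)] : FreeGroup X) = (gen x : FTG X)⁻¹ :=
            (FreeGroup.inv_mk (L := [(x, true)])).symm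
          rw [h3]
          exact inv_mem h2
        · exact h2
    rw [← mk_word w]
    exact h1 _ fun p hp => h _ (mem_letters.2 ⟨p, hp, rfl⟩)

end letters

/-! ### Separation -/

section sep

variable {X : Type} [TopologicalSpace X] [TotallySeparatedSpace X]

/-- A locally constant map which fixes a given finite set. -/
theorem exists_retract (L : Finset X) : ∃ c : X → X, IsLocallyConstant c ∧ ∀ x ∈ L, c x = x := by
  classical
  rcases L.eq_empty_or_nonempty with rfl | ⟨x0, hx0⟩
  · rcases isEmpty_or_nonempty X with h | ⟨⟨x0⟩⟩
    · exact ⟨id, fun s => by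
        have : s = ∅ := Set.eq_empty_of_isEmpty s
        rw [this]; simp, by simp⟩
    · exact ⟨fun _ => x0, IsLocallyConstant.const x0, by simp⟩
  · have h1 : ∀ p : X × X, ∃ U : Set X, IsClopen U ∧ (p.1 ≠ p.2 → p.1 ∈ U ∧ p.2 ∉ U) := by
      intro p
      by_cases hp : p.1 = p.2
      · exact ⟨∅, isClopen_empty, fun h => absurd hp h⟩
      · obtain ⟨U, hU, h1, h2⟩ := exists_isClopen_of_totally_separated hp
        exact ⟨U, hU, fun _ => ⟨h1, h2⟩⟩
    choose U hU hU2 using h1
    let k : X → (L × L → Bool) := fun x q => decide (x ∈ U (q.1.1, q.2.1))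
    have hk : IsLocallyConstant k := by
      rw [IsLocallyConstant.iff_continuous]
      refine continuous_pi fun q => ?_
      rw [← IsLocallyConstant.iff_continuous, IsLocallyConstant.iff_exists_open]
      intro x
      by_cases hx : x ∈ U (q.1.1, q.2.1)
      · exact ⟨_, (hU _).isOpen, hx, fun y hy => by simp [k, hx, hy]⟩
      · exact ⟨_, (hU _).compl.isOpen, hx, fun y hy => by
          have hy' : y ∉ U (q.1.1, q.2.1) := hy
          simp [k, hx, hy']⟩
    have hinj : ∀ x ∈ L, ∀ y ∈ L, k x = k y → x = y := by
      intro x hx y hy hxy
      by_contra hne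
      have h2 := congrFun hxy (⟨x, hx⟩, ⟨y, hy⟩)
      have h3 := hU2 (x, y) hne
      simp only [k, decide_eq_decide] at h2
      exact h3.2 (h2.1 h3.1)
    refine ⟨fun x => if h : ∃ y ∈ L, k y = k x then h.choose else x0, ?_, ?_⟩
    · exact hk.comp (fun t => if h : ∃ y ∈ L, k y = t then h.choose else x0)
    · intro x hx
      have h : ∃ y ∈ L, k y = k x := ⟨x, hx, rfl⟩
      simp only [h, dif_pos]
      exact hinj _ h.choose_spec.1 _ hx h.choose_spec.2

omit [TotallySeparatedSpace X] in
theorem isOpen_map {c : X → X} (hc : IsLocallyConstant c) (S : Set (FTG X)) :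
    IsOpen (map c ⁻¹' S) := by
  refine isOpen_lift (X := X) (G := FTG X) (f := fun x => gen (c x)) ?_ S
  exact hc.comp gen

instance : T2Space (FTG X) := by
  refine ⟨fun v w hvw => ?_⟩
  classical
  obtain ⟨c, hc, hL⟩ := exists_retract (letters v ∪ letters w)
  have hv : map c v = v := map_fix fun x hx => hL x (Finset.mem_union_left _ hx)
  have hw : map c w = w := map_fix fun x hx => hL x (Finset.mem_union_right _ hx)
  refine ⟨map c ⁻¹' {v}, map c ⁻¹' {w}, isOpen_map hc _, isOpen_map hc _, ?_, ?_, ?_⟩
  · simp [hv]
  · simp [hw]
  · rw [Set.disjoint_left]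
    intro u hu hu'
    simp only [mem_preimage, mem_singleton_iff] at hu hu'
    exact hvw (hu.symm.trans hu')

end sep

end Pool.Agent.R816.FTG
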