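import Pool.Agent.R816.FTG

/-!
# The free topological group of a compact totally separated space

Its topology is the colimit topology of the sets of words of bounded length (Graev, Milnor).
-/

set_option autoImplicit false

open Topology Set

namespace Pool.Agent.R816.FTG

/-- the letters, with a unit letter -/
abbrev Lam (M : Type) := (M ⊕ M) ⊕ Unit

section basic

variable {M : Type} [TopologicalSpace M]

/-- evaluation of letters -/
def lam : Lam M → FTG M := Sum.elim (Sum.elim gen fun x => (gen x)⁻¹) fun _ => 1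

theorem lam_continuous : Continuous (lam : Lam M → FTG M) :=
  Continuous.sumElim (Continuous.sumElim (continuous_gen M) (continuous_gen M).inv)
    continuous_const

/-- evaluation of words of length `n` -/
def q (n : ℕ) (u : Fin n → Lam M) : FTG M := (List.ofFn fun i => lam (u i)).prod

omit [TopologicalSpace M] in
theorem q_succ (n : ℕ) (u : Fin (n + 1) → Lam M) :
    q (n + 1) u = lam (u 0) * q n (fun i => u i.succ) := by
  unfold q
  rw [List.ofFn_succ, List.prod_cons]

omit [TopologicalSpace M] in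
theorem q_succ' (n : ℕ) (u : Fin (n + 1) → Lam M) :
    q (n + 1) u = q n (fun i => u i.castSucc) * lam (u (Fin.last n)) := by
  unfold q
  rw [List.ofFn_succ', List.prod_concat]

theorem q_continuous (n : ℕ) : Continuous (q n : (Fin n → Lam M) → FTG M) := by
  induction n with
  | zero => exact continuous_const
  | succ n ih =>
    have : (q (n + 1) : (Fin (n + 1) → Lam M) → FTG M) =
        fun u => lam (u 0) * q n (fun i => u i.succ) := funext fun u => q_succ n u
    rw [this]
    refine (lam_continuous.comp (continuous_apply 0)).mul (ih.comp ?_)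
    exact continuous_pi fun i => continuous_apply _

omit [TopologicalSpace M] in
theorem q_append (n m : ℕ) (u : Fin n → Lam M) (v : Fin m → Lam M) :
    q (n + m) (Fin.append u v) = q n u * q m v := by
  unfold q
  rw [← List.prod_append, ← List.ofFn_fin_append]
  congr 2
  funext i
  refine Fin.addCases (fun i => ?_) (fun i => ?_) i <;> simp

theorem append_continuous (n m : ℕ) :
    Continuous fun p : (Fin n → Lam M) × (Fin m → Lam M) => Fin.append p.1 p.2 := by
  refine continuous_pi fun i => ?_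
  refine Fin.addCases (fun i => ?_) (fun i => ?_) i
  · simp only [Fin.append_left]
    exact (continuous_apply i).comp continuous_fst
  · simp only [Fin.append_right]
    exact (continuous_apply i).comp continuous_snd

/-- the inverse letter -/
def flip : Lam M → Lam M := Sum.map Sum.swap id

omit [TopologicalSpace M] in
theorem lam_flip (a : Lam M) : lam (flip a) = (lam a)⁻¹ := by
  rcases a with (a | a) | a <;> simp [lam, flip]

theorem flip_continuous : Continuous (flip : Lam M → Lam M) :=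
  Continuous.sumMap continuous_sum_swap continuous_id

/-- the inverse word -/
def rv (n : ℕ) (u : Fin n → Lam M) : Fin n → Lam M := fun i => flip (u i.rev)

theorem rv_continuous (n : ℕ) : Continuous (rv n : (Fin n → Lam M) → _) :=
  continuous_pi fun i => flip_continuous.comp (continuous_apply _)

omit [TopologicalSpace M] in
theorem q_rv (n : ℕ) (u : Fin n → Lam M) : q n (rv n u) = (q n u)⁻¹ := by
  induction n with
  | zero => simp [q]
  | succ n ih =>
    rw [q_succ', q_succ n u, mul_inv_rev, ← lam_flip, ← ih]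
    congr 1
    · congr 1
      funext i
      unfold rv
      rw [Fin.rev_castSucc]
    · unfold rv
      rw [Fin.rev_last]

omit [TopologicalSpace M] in
theorem q_pad (n : ℕ) (u : Fin n → Lam M) :
    q (n + 1) (Fin.cons (Sum.inr ()) u : Fin (n + 1) → Lam M) = q n u := by
  rw [q_succ]
  simp [lam]

omit [TopologicalSpace M] in
theorem range_mono {n m : ℕ} (h : n ≤ m) : range (q n : (Fin n → Lam M) → _) ⊆ range (q m) := by
  induction m, h using Nat.le_induction with
  | base => exact subset_rfl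
  | succ m _ ih =>
    refine ih.trans ?_
    rintro _ ⟨u, rfl⟩
    exact ⟨_, q_pad m u⟩

omit [TopologicalSpace M] in
theorem q_surj (w : FTG M) : ∃ n, w ∈ range (q n : (Fin n → Lam M) → FTG M) := by
  have h1 : ∀ a : Lam M, lam a ∈ range (q 1 : (Fin 1 → Lam M) → FTG M) := by
    intro a
    refine ⟨fun _ => a, ?_⟩
    simp [q]
  have hmul : ∀ v w : FTG M, (∃ n, v ∈ range (q n : (Fin n → Lam M) → FTG M)) →
      (∃ n, w ∈ range (q n : (Fin n → Lam M) → FTG M)) →
      ∃ n, v * w ∈ range (q n : (Fin n → Lam M) → FTG M) := by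
    rintro _ _ ⟨n, u, rfl⟩ ⟨m, v, rfl⟩
    exact ⟨n + m, _, q_append n m u v⟩
  have h : ∀ L : List (M × Bool), ∃ n, (FreeGroup.mk L : FreeGroup M) ∈
      range (q n : (Fin n → Lam M) → FTG M) := by
    intro L
    induction L with
    | nil => exact ⟨0, fun i => i.elim0, rfl⟩
    | cons p L ih =>
      have h2 : (FreeGroup.mk (p :: L) : FreeGroup M) = FreeGroup.mk [p] * FreeGroup.mk L := by
        rw [FreeGroup.mul_mk]
        rfl
      rw [h2]
      refine hmul _ _ ⟨1, ?_⟩ ih
      obtain ⟨x, b⟩ := p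
      cases b
      · have h3 : (FreeGroup.mk [(x, false)] : FreeGroup M) = (gen x : FTG M)⁻¹ :=
          (FreeGroup.inv_mk (L := [(x, true)])).symm
        rw [h3]
        exact h1 (Sum.inl (Sum.inr x))
      · exact h1 (Sum.inl (Sum.inl x))
  rw [← mk_word w]
  exact h _

omit [TopologicalSpace M] in
theorem len_q (n : ℕ) (u : Fin n → Lam M) : len (q n u) ≤ n := by
  induction n with
  | zero => exact le_of_eq len_one
  | succ n ih =>
    rw [q_succ]
    have h1 : ∀ a : Lam M, len (lam a) ≤ 1 := by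
      rintro ((a | a) | a)
      · exact (len_gen a).le
      · exact ((len_inv _).trans (len_gen a)).le
      · exact len_one.le.trans zero_le_one
    have h2 := len_mul (lam (u 0)) (q n fun i => u i.succ)
    have h3 := h1 (u 0)
    have h4 := ih fun i => u i.succ
    omega

end basic

/-- A criterion for group topologies. -/
theorem isTopologicalGroup_of {G : Type} [Group G] (t : TopologicalSpace G)
    (h1 : ∀ O, IsOpen[t] O → ∀ a b, a * b ∈ O → ∃ A B : Set G, IsOpen[t] A ∧ IsOpen[t] B ∧ a ∈ A ∧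
      b ∈ B ∧ ∀ x ∈ A, ∀ y ∈ B, x * y ∈ O)
    (h2 : ∀ O, IsOpen[t] O → IsOpen[t] ((fun x => x⁻¹) ⁻¹' O)) : @IsTopologicalGroup G t _ := by
  have hm : ContinuousMul G := by
    refine ⟨⟨fun O hO => ?_⟩⟩
    rw [isOpen_prod_iff]
    intro a b hab
    obtain ⟨A, B, hA, hB, ha, hb, h⟩ := h1 O hO a b hab
    exact ⟨A, B, hA, hB, ha, hb, fun p hp => h _ hp.1 _ hp.2⟩
  have hi : ContinuousInv G := ⟨⟨h2⟩⟩
  exact {}

section comp

variable {M : Type} [TopologicalSpace M] [CompactSpace M] [T2Space M] [TotallySeparatedSpace M]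

/-- compact sets of words have closed preimages -/
theorem closed_image {n : ℕ} {K : Set (Fin n → Lam M)} (hK : IsClosed K) (m : ℕ) :
    IsClosed (q m ⁻¹' (q n '' K)) := by
  have h1 : q m ⁻¹' (q n '' K) = Prod.snd ''
      ({p : (Fin n → Lam M) × (Fin m → Lam M) | p.1 ∈ K ∧ q n p.1 = q m p.2}) := by
    ext v
    constructor
    · rintro ⟨u, hu, h⟩
      exact ⟨(u, v), ⟨hu, h⟩, rfl⟩
    · rintro ⟨⟨u, v'⟩, ⟨hu, h⟩, rfl⟩
      exact ⟨u, hu, h⟩
  rw [h1]
  refine (IsCompact.image ?_ continuous_snd).isClosed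
  refine IsClosed.isCompact ?_
  exact (hK.preimage continuous_fst).inter
    (isClosed_eq ((q_continuous n).comp continuous_fst) ((q_continuous m).comp continuous_snd))

/-- one set is a neighbourhood of another, at level `n` -/
def Nb (n : ℕ) (A A' : Set (FTG M)) : Prop :=
  ∃ V : Set (Fin n → Lam M), IsOpen V ∧ q n ⁻¹' A ⊆ V ∧ V ⊆ q n ⁻¹' A'

omit [CompactSpace M] [T2Space M] [TotallySeparatedSpace M] in
theorem Nb.of_le {n m : ℕ} (h : n ≤ m) {A A' : Set (FTG M)} (hm : Nb m A A') : Nb n A A' := by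
  induction m, h using Nat.le_induction with
  | base => exact hm
  | succ m _ ih =>
    refine ih ?_
    obtain ⟨V, hV, h1, h2⟩ := hm
    refine ⟨(fun u : Fin m → Lam M => (Fin.cons (Sum.inr ()) u : Fin (m + 1) → Lam M)) ⁻¹' V,
      hV.preimage ?_, ?_, ?_⟩
    · refine continuous_pi fun i => ?_
      refine Fin.cases ?_ (fun i => ?_) i
      · simp only [Fin.cons_zero]
        exact continuous_const
      · simp only [Fin.cons_succ]
        exact continuous_apply i
    · intro u hu
      refine h1 ?_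
      rw [mem_preimage, q_pad]
      exact hu
    · intro u hu
      have h3 := h2 hu
      rw [mem_preimage, q_pad] at h3
      exact h3

/-- the inductive step -/
theorem step {O : Set (FTG M)} (hO : ∀ n, IsOpen (q n ⁻¹' O)) (n : ℕ) {A B : Set (FTG M)}
    (hA : ∀ m, IsClosed (q m ⁻¹' A)) (hB : ∀ m, IsClosed (q m ⁻¹' B))
    (hAn : A ⊆ range (q n)) (hBn : B ⊆ range (q n)) (hAB : ∀ x ∈ A, ∀ y ∈ B, x * y ∈ O) :
    ∃ A' B' : Set (FTG M), (∀ m, IsClosed (q m ⁻¹' A')) ∧ (∀ m, IsClosed (q m ⁻¹' B')) ∧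
      A' ⊆ range (q n) ∧ B' ⊆ range (q n) ∧ (∀ x ∈ A', ∀ y ∈ B', x * y ∈ O) ∧ A ⊆ A' ∧ B ⊆ B' ∧
      Nb n A A' ∧ Nb n B B' := by
  have h1 : IsOpen {p : (Fin n → Lam M) × (Fin n → Lam M) | q n p.1 * q n p.2 ∈ O} := by
    have h2 := (hO (n + n)).preimage (append_continuous (M := M) n n)
    convert h2 using 1
    ext p
    simp only [mem_ofPred_eq, mem_preimage, q_append]
  obtain ⟨U, U', hU, hU', hCU, hCU', hUU'⟩ := generalized_tube_lemma (hA n).isCompact
    (hB n).isCompact h1 (fun p hp => hAB _ hp.1 _ hp.2)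
  obtain ⟨V, hV, hCV, hVU⟩ := normal_exists_closure_subset (hA n) hU hCU
  obtain ⟨V', hV', hCV', hVU'⟩ := normal_exists_closure_subset (hB n) hU' hCU'
  refine ⟨q n '' closure V, q n '' closure V', closed_image isClosed_closure,
    closed_image isClosed_closure, image_subset_range _ _, image_subset_range _ _, ?_, ?_, ?_, ?_, ?_⟩
  · rintro _ ⟨u, hu, rfl⟩ _ ⟨v, hv, rfl⟩
    exact hUU' (mk_mem_prod (hVU hu) (hVU' hv))
  · intro a ha
    obtain ⟨u, rfl⟩ := hAn ha
    exact ⟨u, subset_closure (hCV ha), rfl⟩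
  · intro a ha
    obtain ⟨u, rfl⟩ := hBn ha
    exact ⟨u, subset_closure (hCV' ha), rfl⟩
  · exact ⟨V, hV, hCV, fun u hu => ⟨u, subset_closure hu, rfl⟩⟩
  · exact ⟨V', hV', hCV', fun u hu => ⟨u, subset_closure hu, rfl⟩⟩

theorem mul_open {O : Set (FTG M)} (hO : ∀ n, IsOpen (q n ⁻¹' O)) {a b : FTG M} (hab : a * b ∈ O) :
    ∃ A B : Set (FTG M), (∀ n, IsOpen (q n ⁻¹' A)) ∧ (∀ n, IsOpen (q n ⁻¹' B)) ∧ a ∈ A ∧ b ∈ B ∧
      ∀ x ∈ A, ∀ y ∈ B, x * y ∈ O := by
  obtain ⟨n1, h1⟩ := q_surj a
  obtain ⟨n2, h2⟩ := q_surj b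
  set N := max n1 n2
  have ha : a ∈ range (q N) := range_mono (le_max_left _ _) h1
  have hb : b ∈ range (q N) := range_mono (le_max_right _ _) h2
  let Good : ℕ → Set (FTG M) × Set (FTG M) → Prop := fun n p =>
    (∀ m, IsClosed (q m ⁻¹' p.1)) ∧ (∀ m, IsClosed (q m ⁻¹' p.2)) ∧
      p.1 ⊆ range (q n) ∧ p.2 ⊆ range (q n) ∧ (∀ x ∈ p.1, ∀ y ∈ p.2, x * y ∈ O)
  have h0 : Good (N + 0) ({a}, {b}) := by
    refine ⟨fun m => isClosed_singleton.preimage (q_continuous m),
      fun m => isClosed_singleton.preimage (q_continuous m), ?_, ?_, ?_⟩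
    · simpa using ha
    · simpa using hb
    · intro x hx y hy
      rw [mem_singleton_iff] at hx hy
      rw [hx, hy]
      exact hab
  have hstep : ∀ n : ℕ, ∀ p : {p // Good (N + n) p}, ∃ p' : {p // Good (N + (n + 1)) p},
      p.1.1 ⊆ p'.1.1 ∧ p.1.2 ⊆ p'.1.2 ∧ Nb (N + n) p.1.1 p'.1.1 ∧ Nb (N + n) p.1.2 p'.1.2 := by
    rintro n ⟨p, hp⟩
    obtain ⟨A', B', g1, g2, g3, g4, g5, g6, g7, g8, g9⟩ := step hO (N + n) hp.1 hp.2.1 hp.2.2.1
      hp.2.2.2.1 hp.2.2.2.2
    exact ⟨⟨(A', B'), g1, g2, g3.trans (range_mono (Nat.le_succ _)),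
      g4.trans (range_mono (Nat.le_succ _)), g5⟩, g6, g7, g8, g9⟩
  choose nx hnx using hstep
  let s : ∀ n : ℕ, {p // Good (N + n) p} := fun n => Nat.rec ⟨_, h0⟩ (fun n p => nx n p) n
  have hs : ∀ n, s (n + 1) = nx n (s n) := fun n => rfl
  have hmonoA : Monotone fun n => (s n).1.1 := monotone_nat_of_le_succ fun n => by
    rw [hs]
    exact (hnx n (s n)).1
  have hmonoB : Monotone fun n => (s n).1.2 := monotone_nat_of_le_succ fun n => by
    rw [hs]
    exact (hnx n (s n)).2.1
  refine ⟨⋃ n, (s n).1.1, ⋃ n, (s n).1.2, ?_, ?_, ?_, ?_, ?_⟩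
  · intro m
    rw [isOpen_iff_forall_mem_open]
    intro u hu
    obtain ⟨n, hn⟩ := mem_iUnion.1 (mem_preimage.1 hu)
    have hn' : q m u ∈ (s (max n m)).1.1 := hmonoA (le_max_left n m) hn
    have h3 := (hnx (max n m) (s (max n m))).2.2.1
    obtain ⟨V, hV, g1, g2⟩ := Nb.of_le (n := m) ((le_max_right n m).trans (Nat.le_add_left _ _)) h3
    refine ⟨V, ?_, hV, g1 hn'⟩
    intro v hv
    refine mem_iUnion.2 ⟨max n m + 1, ?_⟩
    rw [hs]
    exact g2 hv
  · intro m
    rw [isOpen_iff_forall_mem_open]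
    intro u hu
    obtain ⟨n, hn⟩ := mem_iUnion.1 (mem_preimage.1 hu)
    have hn' : q m u ∈ (s (max n m)).1.2 := hmonoB (le_max_left n m) hn
    have h3 := (hnx (max n m) (s (max n m))).2.2.2
    obtain ⟨V, hV, g1, g2⟩ := Nb.of_le (n := m) ((le_max_right n m).trans (Nat.le_add_left _ _)) h3
    refine ⟨V, ?_, hV, g1 hn'⟩
    intro v hv
    refine mem_iUnion.2 ⟨max n m + 1, ?_⟩
    rw [hs]
    exact g2 hv
  · exact mem_iUnion.2 ⟨0, rfl⟩
  · exact mem_iUnion.2 ⟨0, rfl⟩
  · intro x hx y hy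
    obtain ⟨i, hi⟩ := mem_iUnion.1 hx
    obtain ⟨j, hj⟩ := mem_iUnion.1 hy
    exact (s (max i j)).2.2.2.2.2 x (hmonoA (le_max_left i j) hi) y (hmonoB (le_max_right i j) hj)

/-- The colimit topology. -/
@[instance_reducible] def tc : TopologicalSpace (FTG M) := ⨆ n : ℕ, TopologicalSpace.coinduced (q n) inferInstance

omit [CompactSpace M] [T2Space M] [TotallySeparatedSpace M] in
theorem isOpen_tc {O : Set (FTG M)} : IsOpen[tc] O ↔ ∀ n, IsOpen (q n ⁻¹' O) := by
  unfold tc
  rw [isOpen_iSup_iff]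
  rfl

theorem le_tc : (instTop M) ≤ tc := by
  refine sInf_le ⟨?_, ?_⟩
  · refine isTopologicalGroup_of _ ?_ ?_
    · intro O hO a b hab
      obtain ⟨A, B, hA, hB, h⟩ := mul_open (isOpen_tc.1 hO) hab
      exact ⟨A, B, isOpen_tc.2 hA, isOpen_tc.2 hB, h⟩
    · intro O hO
      rw [isOpen_tc] at hO ⊢
      intro n
      have h1 := (hO n).preimage (rv_continuous n)
      convert h1 using 1
      ext u
      simp only [mem_preimage, q_rv]
  · refine @Continuous.mk _ _ _ tc _ fun O hO => ?_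
    have h1 := (isOpen_tc.1 hO 1).preimage
      (f := fun x : M => (fun _ => Sum.inl (Sum.inl x) : Fin 1 → Lam M)) (by fun_prop)
    convert h1 using 1
    ext x
    simp [q, lam]

/-- A subset of `F(M)` is open if its preimages in the spaces of words are open. -/
theorem isOpen_of_q {O : Set (FTG M)} (hO : ∀ n, IsOpen (q n ⁻¹' O)) : IsOpen O :=
  le_tc _ (isOpen_tc.2 hO)

theorem continuous_of_q {Y : Type} [TopologicalSpace Y] {g : FTG M → Y}
    (hg : ∀ n, Continuous fun u : Fin n → Lam M => g (q n u)) : Continuous g :=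
  ⟨fun O hO => isOpen_of_q fun n => hO.preimage (hg n)⟩

/-- Compact subsets consist of words of bounded length. -/
theorem bounded_of_isCompact {K : Set (FTG M)} (hK : IsCompact K) : ∃ n, ∀ w ∈ K, len w ≤ n := by
  by_contra hcon
  push Not at hcon
  have h1 : ∀ n, ∃ w ∈ K, w ∉ range (q n : (Fin n → Lam M) → FTG M) := by
    intro n
    obtain ⟨w, hw, h⟩ := hcon n
    refine ⟨w, hw, ?_⟩
    rintro ⟨u, rfl⟩
    exact absurd (len_q n u) (not_le.2 h)
  choose w hwK hw using h1
  let T : ℕ → Set (FTG M) := fun n => {x | ∃ m, n ≤ m ∧ x = w m}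
  have hT : ∀ n, IsClosed (T n) := by
    intro n
    rw [← isOpen_compl_iff]
    refine isOpen_of_q fun m => ?_
    rw [preimage_compl, isOpen_compl_iff]
    have h2 : (q m : (Fin m → Lam M) → FTG M) ⁻¹' (T n) =
        q m ⁻¹' ((fun i => w i) '' {i | i ≤ m ∧ n ≤ i}) := by
      ext u
      simp only [T, mem_preimage, mem_ofPred_eq, mem_image]
      constructor
      · rintro ⟨i, hi, h⟩
        refine ⟨i, ⟨?_, hi⟩, h.symm⟩
        by_contra hc
        exact hw i (range_mono (not_le.1 hc).le ⟨u, h⟩)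
      · rintro ⟨i, ⟨_, hi⟩, h⟩
        exact ⟨i, hi, h.symm⟩
    rw [h2]
    refine IsClosed.preimage (q_continuous m) (Set.Finite.isClosed ?_)
    exact ((Set.finite_Iic m).subset fun i hi => hi.1).image _
  obtain ⟨x, hx⟩ := IsCompact.nonempty_iInter_of_sequence_nonempty_isCompact_isClosed T
    (fun n => by
      rintro x ⟨m, hm, rfl⟩
      exact ⟨m, (Nat.le_succ n).trans hm, rfl⟩)
    (fun n => ⟨w n, n, le_rfl, rfl⟩)
    (hK.of_isClosed_subset (hT 0) (by
      rintro x ⟨m, _, rfl⟩
      exact hwK m))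
    hT
  obtain ⟨N, hN⟩ := q_surj x
  obtain ⟨m, hm, rfl⟩ := mem_iInter.1 hx N
  exact hw m (range_mono hm hN)

end comp

end Pool.Agent.R816.FTG
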