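import Mathlib

/-!
Grothendieck's theorem: if a set `C` of real functions on a set `S` covered by countably many
compact pieces, continuous on each of the pieces, is such that each sequence in `C` has a cluster
point in `C` (pointwise), then `C` is compact in the topology of pointwise convergence.
-/

set_option autoImplicit false

open Set Filter Topology

namespace Pool.Agent.R816.Groth

universe u

/-- countable subset of `F` with image dense in the image of `F` -/
lemma exists_dense_seq {S : Type u} (F : Set S) (hF : F.Nonempty) (L : List (S → ℝ)) :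
    ∃ d : ℕ → S, (∀ i, d i ∈ F) ∧
      ∀ p ∈ F, ∀ ε : ℝ, 0 < ε → ∃ i, ∀ f ∈ L, |f (d i) - f p| < ε := by
  classical
  let Φ : S → (Fin L.length → ℝ) := fun p j => L.get j p
  have hsep : TopologicalSpace.IsSeparable (Φ '' F) := TopologicalSpace.IsSeparable.of_separableSpace _
  obtain ⟨c, hc, hcF⟩ : ∃ c : Set (Fin L.length → ℝ), c ⊆ Φ '' F ∧ c.Countable ∧ Φ '' F ⊆ closure c := by
    obtain ⟨c, h1, h2, h3⟩ := hsep.exists_countable_dense_subset
    exact ⟨c, h1, h2, h3⟩
  obtain ⟨hcc, hcd⟩ := hcF
  have hne : c.Nonempty := by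
    by_contra h
    rw [not_nonempty_iff_eq_empty] at h
    rw [h, closure_empty] at hcd
    obtain ⟨x, hx⟩ := hF
    exact hcd (mem_image_of_mem _ hx)
  obtain ⟨e, he⟩ := hcc.exists_eq_range hne
  have : ∀ i, ∃ s ∈ F, Φ s = e i := fun i => by
    have : e i ∈ c := he ▸ mem_range_self i
    exact hc this
  choose d hd1 hd2 using this
  refine ⟨d, hd1, fun p hp ε hε => ?_⟩
  have h1 := hcd (mem_image_of_mem Φ hp)
  rw [Metric.mem_closure_iff] at h1
  obtain ⟨b, hb, hdist⟩ := h1 ε hε
  rw [he] at hb
  obtain ⟨i, rfl⟩ := hb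
  refine ⟨i, fun f hf => ?_⟩
  obtain ⟨j, rfl⟩ := List.get_of_mem hf
  have h2 : dist (Φ p j) (e i j) < ε := (dist_le_pi_dist _ _ j).trans_lt hdist
  rw [← hd2 i, dist_comm, Real.dist_eq] at h2
  exact h2

lemma mem_closure_pi' {S : Type u} {C : Set (S → ℝ)} {g : S → ℝ} (hg : g ∈ closure C)
    (Q : Finset S) {ε : ℝ} (hε : 0 < ε) : ∃ f ∈ C, ∀ q ∈ Q, |f q - g q| < ε := by
  have hopen : IsOpen {f : S → ℝ | ∀ q ∈ Q, |f q - g q| < ε} := by
    have : {f : S → ℝ | ∀ q ∈ Q, |f q - g q| < ε} = ⋂ q ∈ Q, {f : S → ℝ | |f q - g q| < ε} := by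
      ext f; simp
    rw [this]
    refine isOpen_biInter_finset fun q _ => ?_
    exact isOpen_lt (((continuous_apply q).sub continuous_const).abs) continuous_const
  obtain ⟨f, hf1, hf2⟩ := mem_closure_iff.1 hg _ hopen (fun q _ => by simpa using hε)
  exact ⟨f, hf2, hf1⟩

/-- pointwise cluster points of sequences -/
def Clusters {S : Type u} (C : Set (S → ℝ)) : Prop :=
  ∀ s : ℕ → S → ℝ, (∀ n, s n ∈ C) → ∃ f ∈ C, ∀ (Q : Finset S) (ε : ℝ), 0 < ε → ∀ N : ℕ,
    ∃ n, N ≤ n ∧ ∀ q ∈ Q, |s n q - f q| < ε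

theorem isClosed_of_clusters {S : Type u} [TopologicalSpace S] (F : ℕ → Set S)
    (hF : ∀ n, IsCompact (F n)) (hcov : ∀ p, ∃ n, p ∈ F n) (C : Set (S → ℝ))
    (hC : ∀ f ∈ C, Continuous f) (hcl : Clusters C) : IsClosed C := by
  classical
  refine isClosed_of_closure_subset fun g hg => ?_
  rcases isEmpty_or_nonempty S with hS | hS
  · obtain ⟨f, hf⟩ : C.Nonempty := closure_nonempty_iff.mp ⟨g, hg⟩
    rwa [Subsingleton.elim g f]
  -- countable dense sequences
  have hd : ∀ (n : ℕ) (L : List (S → ℝ)), ∃ d : ℕ → S, ((F n).Nonempty → (∀ i, d i ∈ F n) ∧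
      ∀ p ∈ F n, ∀ ε : ℝ, 0 < ε → ∃ i, ∀ f ∈ L, |f (d i) - f p| < ε) := by
    intro n L
    by_cases h : (F n).Nonempty
    · obtain ⟨d, h1⟩ := exists_dense_seq (F n) h L
      exact ⟨d, fun _ => h1⟩
    · exact ⟨fun _ => Classical.arbitrary S, fun h' => absurd h' h⟩
  choose d hd using hd
  -- the finite sets of points used by a list
  let Q : List (S → ℝ) → Finset S := fun L =>
    (Finset.range (L.length + 1)).biUnion fun n => (Finset.range (L.length + 1)).biUnion fun i =>
      L.tails.toFinset.biUnion fun L' => {d n (g :: L') i}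
  have hstep : ∀ L : List (S → ℝ), ∃ f ∈ C, ∀ q ∈ Q L, |f q - g q| < 1 / ((L.length : ℝ) + 1) :=
    fun L => mem_closure_pi' hg (Q L) (by positivity)
  choose step hstepC hstep using hstep
  let H : ℕ → List (S → ℝ) := fun n => Nat.rec [] (fun _ L => step L :: L) n
  have H0 : H 0 = [] := rfl
  have HS : ∀ n, H (n + 1) = step (H n) :: H n := fun n => rfl
  have Hlen : ∀ n, (H n).length = n := by
    intro n
    induction n with
    | zero => rfl
    | succ n ih => rw [HS, List.length_cons, ih]
  have Hsuf : ∀ j k, j ≤ k → H j <:+ H k := by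
    intro j k hjk
    induction hjk with
    | refl => exact List.suffix_rfl
    | step _ ih => rw [HS]; exact ih.trans (List.suffix_cons _ _)
  let f : ℕ → S → ℝ := fun n => step (H n)
  have hfC : ∀ n, f n ∈ C := fun n => hstepC _
  have hfmem : ∀ j k, j < k → f j ∈ H k := by
    intro j k hjk
    have h1 : H (j + 1) <:+ H k := Hsuf _ _ hjk
    exact h1.subset (by rw [HS]; exact List.mem_cons_self)
  have hfQ : ∀ k n i j, n ≤ k → i ≤ k → j ≤ k →
      |f k (d n (g :: H j) i) - g (d n (g :: H j) i)| < 1 / ((k : ℝ) + 1) := by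
    intro k n i j hn hi hj
    have := hstep (H k) (d n (g :: H j) i) (by
      simp only [Q, Finset.mem_biUnion, Finset.mem_range, Hlen, List.mem_toFinset,
        List.mem_tails, Finset.mem_singleton]
      exact ⟨n, by omega, i, by omega, H j, Hsuf _ _ hj, rfl⟩)
    rwa [Hlen] at this
  obtain ⟨h, hhC, hh⟩ := hcl f hfC
  -- `h = g` on the points `d n (g :: H j) i`
  have heq1 : ∀ n i j, h (d n (g :: H j) i) = g (d n (g :: H j) i) := by
    intro n i j
    by_contra hne
    set x := d n (g :: H j) i with hx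
    have hpos : 0 < |h x - g x| := abs_pos.mpr (sub_ne_zero.mpr hne)
    obtain ⟨N, hN⟩ := exists_nat_gt (2 / |h x - g x|)
    obtain ⟨k, hk, hkq⟩ := hh {x} (|h x - g x| / 2) (by positivity) (max N (max n (max i j)))
    have h1 := hkq x (Finset.mem_singleton_self x)
    have h2 := hfQ k n i j (le_trans (by simp) hk) (le_trans (by simp) hk) (le_trans (by simp) hk)
    rw [← hx] at h2
    have h3 : 1 / ((k : ℝ) + 1) < |h x - g x| / 2 := by
      have hNk : (N : ℝ) ≤ k := by exact_mod_cast le_trans (le_max_left _ _) hk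
      rw [div_lt_iff₀ (by positivity)]
      rw [div_lt_iff₀ hpos] at hN
      nlinarith
    have h4 : |h x - g x| ≤ |f k x - h x| + |f k x - g x| := by
      have := abs_sub_abs_le_abs_sub (h x - g x) 0
      have h5 : h x - g x = -(f k x - h x) + (f k x - g x) := by ring
      calc |h x - g x| = |-(f k x - h x) + (f k x - g x)| := by rw [← h5]
        _ ≤ |-(f k x - h x)| + |f k x - g x| := abs_add_le _ _
        _ = _ := by rw [abs_neg]
    linarith
  have : h = g := by
    funext p
    obtain ⟨n, hn⟩ := hcov p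
    have hne : (F n).Nonempty := ⟨p, hn⟩
    -- choose approximating points
    have hq : ∀ j : ℕ, ∃ q ∈ F n, h q = g q ∧ (∀ i < j, |f i q - f i p| < 1 / ((j : ℝ) + 1)) ∧
        |g q - g p| < 1 / ((j : ℝ) + 1) := by
      intro j
      obtain ⟨hd1, hd2⟩ := hd n (g :: H j) hne
      obtain ⟨i, hi⟩ := hd2 p hn (1 / ((j : ℝ) + 1)) (by positivity)
      refine ⟨_, hd1 i, heq1 n i j, fun m hm => hi _ (List.mem_cons_of_mem _ (hfmem m j hm)),
        hi _ List.mem_cons_self⟩
    choose q hqF hqe hqf hqg using hq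
    obtain ⟨r, hr, hrc⟩ := (hF n) (f := Filter.map q atTop) (by
      rw [le_principal_iff, mem_map]
      exact Filter.Eventually.of_forall fun j => hqF j)
    have hrc' : MapClusterPt r atTop q := hrc
    -- value of a continuous function at `r`
    have key : ∀ (k : S → ℝ) (c : ℝ), Continuous k → Tendsto (fun j => k (q j)) atTop (𝓝 c) →
        k r = c := by
      intro k c hk hlim
      have h1 : MapClusterPt (k r) atTop (k ∘ q) := hrc'.continuousAt_comp hk.continuousAt
      have h2 : ClusterPt (k r) (𝓝 c) := ClusterPt.mono h1 hlim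
      exact (eq_of_nhds_neBot h2)
    have hz : Tendsto (fun j : ℕ => 1 / ((j : ℝ) + 1)) atTop (𝓝 0) :=
      tendsto_one_div_add_atTop_nhds_zero_nat
    have e1 : ∀ i, f i r = f i p := by
      intro i
      refine key (f i) _ (hC _ (hfC i)) ?_
      rw [tendsto_iff_dist_tendsto_zero]
      refine squeeze_zero' (Filter.Eventually.of_forall fun _ => dist_nonneg) ?_ hz
      filter_upwards [eventually_gt_atTop i] with j hj
      rw [Real.dist_eq]
      exact (hqf j i hj).le
    have e2 : h r = g p := by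
      refine key h _ (hC _ hhC) ?_
      rw [tendsto_iff_dist_tendsto_zero]
      refine squeeze_zero' (Filter.Eventually.of_forall fun _ => dist_nonneg) ?_ hz
      filter_upwards with j
      rw [Real.dist_eq, hqe j]
      exact (hqg j).le
    have e3 : h r = h p := by
      by_contra hne
      have hpos : 0 < |h r - h p| := abs_pos.mpr (sub_ne_zero.mpr hne)
      obtain ⟨k, -, hk⟩ := hh {r, p} (|h r - h p| / 2) (by positivity) 0
      have h1 := hk r (by simp)
      have h2 := hk p (by simp)
      rw [e1 k] at h1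
      have h3 : |h r - h p| ≤ |f k p - h r| + |f k p - h p| := by
        have h5 : h r - h p = -(f k p - h r) + (f k p - h p) := by ring
        calc |h r - h p| = |-(f k p - h r) + (f k p - h p)| := by rw [← h5]
          _ ≤ |-(f k p - h r)| + |f k p - h p| := abs_add_le _ _
          _ = _ := by rw [abs_neg]
      linarith
    rw [← e3, e2]
  exact this ▸ hhC

theorem isCompact_of_clusters {S : Type u} [TopologicalSpace S] (F : ℕ → Set S)
    (hF : ∀ n, IsCompact (F n)) (hcov : ∀ p, ∃ n, p ∈ F n) (C : Set (S → ℝ))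
    (hC : ∀ f ∈ C, Continuous f) (hcl : Clusters C) : IsCompact C := by
  have hb : ∀ p, ∃ M : ℝ, ∀ f ∈ C, |f p| ≤ M := by
    intro p
    by_contra hcon
    push Not at hcon
    choose s hs1 hs2 using fun n : ℕ => hcon n
    obtain ⟨f, hf, hfc⟩ := hcl s hs1
    obtain ⟨N, hN⟩ := exists_nat_gt (|f p| + 1)
    obtain ⟨n, hn, hq⟩ := hfc {p} 1 one_pos N
    have h1 := hq p (by simp)
    have h2 := hs2 n
    have h3 : |s n p| ≤ |f p| + |s n p - f p| := by
      calc |s n p| = |f p + (s n p - f p)| := by ring_nf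
        _ ≤ _ := abs_add_le _ _
    have h4 : (N : ℝ) ≤ n := by exact_mod_cast hn
    linarith
  choose M hM using hb
  have hsub : C ⊆ Set.pi univ (fun p => Icc (-M p) (M p)) := by
    intro f hf p _
    exact abs_le.mp (hM p f hf)
  exact (isCompact_univ_pi fun p => isCompact_Icc).of_isClosed_subset
    (isClosed_of_clusters F hF hcov C hC hcl) hsub

end Pool.Agent.R816.Groth
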