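import Mathlib

/-!
# A weakly pseudocompact group which is not precompact

`G = ℤ × Σ`, where `Σ` is the subgroup of all elements with countable support of `(ℤ/2)^ℝ`.
The one-point compactification of the locally compact space `ℤ × ((ℤ/2)^ℝ \ {1})` contains `G` as a
`Gδ`-dense subspace.
-/

set_option autoImplicit false

open Topology Filter Set

namespace Pool.Agent.R816.WeakPsc

/-- A space `X` is weakly pseudocompact if it embeds as a `Gδ`-dense subspace in some compact
Hausdorff space `K` (i.e. the image of `X` meets every nonempty `Gδ`-subset of `K`; in particular the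
image is dense). -/
def WeaklyPseudocompact (X : Type) [TopologicalSpace X] : Prop :=
  ∃ (K : Type) (_ : TopologicalSpace K), CompactSpace K ∧ T2Space K ∧
    ∃ i : X → K, IsEmbedding i ∧ ∀ W : Set K, IsGδ W → W.Nonempty → (W ∩ range i).Nonempty

/-- The elements of countable support in `(ℤ/2)^I`. -/
def sig (I : Type) : AddSubgroup (I → ZMod 2) where
  carrier := {x | {i | x i ≠ 0}.Countable}
  add_mem' := by
    intro x y hx hy
    refine (hx.union hy).mono fun i hi => ?_
    by_contra hc
    simp only [mem_union, mem_ofPred_eq, not_or, not_not] at hc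
    exact hi (by simp [hc.1, hc.2])
  zero_mem' := by simp
  neg_mem' := by
    intro x hx
    refine hx.mono fun i hi => ?_
    simpa using hi

theorem mem_sig {I : Type} {x : I → ZMod 2} : x ∈ sig I ↔ {i | x i ≠ 0}.Countable := Iff.rfl

/-- Basic neighbourhoods in `(ℤ/2)^I`. -/
theorem exists_finset {I : Type} {O : Set (I → ZMod 2)} (hO : IsOpen O) {y : I → ZMod 2}
    (hy : y ∈ O) : ∃ F : Finset I, ∀ z : I → ZMod 2, (∀ i ∈ F, z i = y i) → z ∈ O := by
  obtain ⟨F, u, hu, hF⟩ := isOpen_pi_iff.1 hO y hy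
  refine ⟨F, fun z hz => hF ?_⟩
  intro i hi
  rw [hz i hi]
  exact (hu i hi).2

/-- The countable support elements meet all nonempty `Gδ`-sets. -/
theorem sig_gdelta {I : Type} (O : ℕ → Set (I → ZMod 2)) (hO : ∀ n, IsOpen (O n))
    (y : I → ZMod 2) (hy : ∀ n, y ∈ O n) : ∃ h ∈ sig I, ∀ n, h ∈ O n := by
  classical
  choose F hF using fun n => exists_finset (hO n) (hy n)
  let A : Set I := ⋃ n, (F n : Set I)
  have hA : A.Countable := countable_iUnion fun n => (F n).countable_toSet
  refine ⟨fun i => if i ∈ A then y i else 0, ?_, fun n => hF n _ ?_⟩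
  · refine hA.mono fun i hi => ?_
    by_contra hc
    exact hi (by simp [hc])
  · intro i hi
    have : i ∈ A := mem_iUnion.2 ⟨n, hi⟩
    simp [this]

theorem one_notMem {I : Type} [Uncountable I] : (fun _ => 1 : I → ZMod 2) ∉ sig I := by
  intro h
  have h2 : (univ : Set I).Countable := h.mono fun i _ => by simp
  exact not_countable (countable_univ_iff.1 h2)

theorem ne_one {I : Type} [Uncountable I] (h : sig I) : (h : I → ZMod 2) ≠ fun _ => 1 := by
  intro e
  exact one_notMem (I := I) (e ▸ h.2)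

/-- The locally compact space `(ℤ/2)^I \ {1}`. -/
abbrev Y (I : Type) : Type := {y : I → ZMod 2 // y ≠ fun _ => 1}

theorem weaklyPseudocompact (I : Type) [Uncountable I] : WeaklyPseudocompact (ℤ × sig I) := by
  have hopen : IsOpen {y : I → ZMod 2 | y ≠ fun _ => 1} := isOpen_ne
  have : LocallyCompactSpace (Y I) := hopen.locallyCompactSpace
  let j : sig I → Y I := fun h => ⟨h, ne_one h⟩
  have hj : IsEmbedding j := by
    have : IsEmbedding (Subtype.val ∘ j) := IsEmbedding.subtypeVal
    exact IsEmbedding.of_comp (by fun_prop) continuous_subtype_val this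
  let i : ℤ × sig I → OnePoint (ℤ × Y I) := fun g => ((g.1, j g.2) : ℤ × Y I)
  have hi : IsEmbedding i := by
    have h1 : IsEmbedding (Prod.map id j : ℤ × sig I → ℤ × Y I) := IsEmbedding.id.prodMap hj
    exact OnePoint.isOpenEmbedding_coe.isEmbedding.comp h1
  refine ⟨OnePoint (ℤ × Y I), inferInstance, inferInstance, inferInstance, i, hi, ?_⟩
  intro W hW hne
  obtain ⟨U, hU, rfl⟩ := isGδ_iff_eq_iInter_nat.1 hW
  obtain ⟨p, hp⟩ := hne
  rw [mem_iInter] at hp
  induction p using OnePoint.rec with
  | infty =>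
    -- the complements of the `U n` are compact
    have hc : ∀ n, IsCompact (((↑) : ℤ × Y I → OnePoint (ℤ × Y I)) ⁻¹' (U n))ᶜ := fun n =>
      ((OnePoint.isOpen_iff_of_mem (hp n)).1 (hU n)).2
    let C : ℕ → Set (I → ZMod 2) := fun n =>
      (fun q : ℤ × Y I => (q.2 : I → ZMod 2)) '' (((↑) : ℤ × Y I → OnePoint (ℤ × Y I)) ⁻¹' (U n))ᶜ
    have hC : ∀ n, IsClosed (C n) := fun n =>
      ((hc n).image (continuous_subtype_val.comp continuous_snd)).isClosed
    obtain ⟨h, hh, hh2⟩ := sig_gdelta (fun n => (C n)ᶜ) (fun n => (hC n).isOpen_compl)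
      (fun _ => 1) (fun n => by
        rintro ⟨q, -, hq⟩
        exact q.2.2 hq)
    refine ⟨i (0, ⟨h, hh⟩), mem_iInter.2 fun n => ?_, mem_range_self _⟩
    by_contra hc'
    exact hh2 n ⟨(0, j ⟨h, hh⟩), hc', rfl⟩
  | coe q =>
    obtain ⟨m, y⟩ := q
    -- the traces of the `U n`
    let O : ℕ → Set (I → ZMod 2) := fun n => (Subtype.val : Y I → (I → ZMod 2)) ''
      ((fun z : Y I => (((m, z) : ℤ × Y I) : OnePoint (ℤ × Y I))) ⁻¹' (U n))
    have hO : ∀ n, IsOpen (O n) := by
      intro n
      refine hopen.isOpenMap_subtype_val _ ?_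
      refine (hU n).preimage ?_
      exact OnePoint.continuous_coe.comp (by fun_prop)
    obtain ⟨h, hh, hh2⟩ := sig_gdelta O hO y (fun n => ⟨y, hp n, rfl⟩)
    refine ⟨i (m, ⟨h, hh⟩), mem_iInter.2 fun n => ?_, mem_range_self _⟩
    obtain ⟨z, hz, hz2⟩ := hh2 n
    have e : z = j ⟨h, hh⟩ := Subtype.ext hz2
    rw [e] at hz
    exact hz

/-- Extension by zero of a function on `A`. -/
noncomputable def ext {I : Type} (A : Set I) (z : A → ZMod 2) (i : I) : ZMod 2 := by
  classical exact if h : i ∈ A then z ⟨i, h⟩ else 0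

theorem ext_mem {I : Type} {A : Set I} (hA : A.Countable) (z : A → ZMod 2) : ext A z ∈ sig I := by
  refine hA.mono fun i hi => ?_
  by_contra hc
  exact hi (by simp [ext, hc])

theorem continuous_ext {I : Type} (A : Set I) : Continuous (ext A) := by
  classical
  refine continuous_pi fun i => ?_
  by_cases h : i ∈ A
  · simp only [ext, h, dite_true]
    exact continuous_apply _
  · simp only [ext, h, dite_false]
    exact continuous_const

/-- A continuous real valued function on the group of countable support elements depends on countably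
many coordinates, up to `ε`. -/
theorem eps_dep {I : Type} (f : sig I → ℝ) (hf : Continuous f) (ε : ℝ) (hε : 0 < ε) :
    ∃ A : Set I, A.Countable ∧ ∀ x y : sig I, (∀ i ∈ A, (x : I → ZMod 2) i = (y : I → ZMod 2) i) →
      |f x - f y| < ε := by
  classical
  by_contra hcon
  push Not at hcon
  choose! x y hxy hfar using hcon
  let step : Set I → Set I := fun A =>
    A ∪ ({i | (x A : I → ZMod 2) i ≠ 0} ∪ {i | (y A : I → ZMod 2) i ≠ 0})
  let A : ℕ → Set I := fun n => Nat.rec (motive := fun _ => Set I) ∅ (fun _ S => step S) n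
  have hA1 : ∀ n, A (n + 1) = A n ∪ ({i | (x (A n) : I → ZMod 2) i ≠ 0} ∪
      {i | (y (A n) : I → ZMod 2) i ≠ 0}) := fun n => rfl
  have hAc : ∀ n, (A n).Countable := by
    intro n
    induction n with
    | zero => exact countable_empty
    | succ n ih =>
      rw [hA1]
      exact ih.union ((x (A n)).2.union (y (A n)).2)
  have hAm : Monotone A := monotone_nat_of_le_succ (fun n => by
    rw [hA1]; exact subset_union_left)
  let B : Set I := ⋃ n, A n
  have hB : B.Countable := countable_iUnion hAc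
  have : Countable B := hB.to_subtype
  -- restrictions to `B`
  let u : ℕ → (B → ZMod 2) := fun n b => (x (A n) : I → ZMod 2) b
  let v : ℕ → (B → ZMod 2) := fun n b => (y (A n) : I → ZMod 2) b
  have hxB : ∀ n, (⟨ext B (u n), ext_mem hB _⟩ : sig I) = x (A n) := by
    intro n
    apply Subtype.ext
    funext i
    by_cases h : i ∈ B
    · simp [ext, h, u]
    · have : (x (A n) : I → ZMod 2) i = 0 := by
        by_contra hc
        exact h (mem_iUnion.2 ⟨n + 1, by rw [hA1]; exact Or.inr (Or.inl hc)⟩)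
      simp [ext, h, this]
  have hyB : ∀ n, (⟨ext B (v n), ext_mem hB _⟩ : sig I) = y (A n) := by
    intro n
    apply Subtype.ext
    funext i
    by_cases h : i ∈ B
    · simp [ext, h, v]
    · have : (y (A n) : I → ZMod 2) i = 0 := by
        by_contra hc
        exact h (mem_iUnion.2 ⟨n + 1, by rw [hA1]; exact Or.inr (Or.inr hc)⟩)
      simp [ext, h, this]
  obtain ⟨w, -, ψ, hψ, hw⟩ := (isCompact_univ (X := B → ZMod 2)).tendsto_subseq
    (x := u) (fun n => mem_univ _)
  have hv : Tendsto (v ∘ ψ) atTop (𝓝 w) := by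
    rw [tendsto_pi_nhds] at hw ⊢
    intro b
    have hb := hw b
    refine hb.congr' ?_
    obtain ⟨n, hn⟩ := mem_iUnion.1 b.2
    filter_upwards [eventually_ge_atTop n] with k hk
    have h1 : (b : I) ∈ A (ψ k) := hAm (le_trans hk (hψ.id_le k)) hn
    exact hxy (A (ψ k)) (hAc _) b h1
  have hcont : Continuous (fun z : B → ZMod 2 => f ⟨ext B z, ext_mem hB z⟩) :=
    hf.comp ((continuous_ext B).subtype_mk _)
  have l1 := (hcont.tendsto w).comp hw
  have l2 := (hcont.tendsto w).comp hv
  have l3 := (l1.sub l2).abs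
  simp only [sub_self, abs_zero] at l3
  obtain ⟨n, hn⟩ := (l3.eventually (gt_mem_nhds hε)).exists
  simp only [Function.comp_apply] at hn
  rw [hxB, hyB] at hn
  exact absurd hn (not_lt.2 (hfar _ (hAc _)))

/-- A continuous real valued function on the group `ℤ × Σ` depends on countably many coordinates. -/
theorem dep {I : Type} (f : ℤ × sig I → ℝ) (hf : Continuous f) :
    ∃ A : Set I, A.Countable ∧ ∀ (m : ℤ) (x y : sig I),
      (∀ i ∈ A, (x : I → ZMod 2) i = (y : I → ZMod 2) i) → f (m, x) = f (m, y) := by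
  have h : ∀ (m : ℤ) (n : ℕ), ∃ A : Set I, A.Countable ∧ ∀ x y : sig I,
      (∀ i ∈ A, (x : I → ZMod 2) i = (y : I → ZMod 2) i) →
      |f (m, x) - f (m, y)| < 1 / ((n : ℝ) + 1) := fun m n =>
    eps_dep (fun x => f (m, x)) (hf.comp (by fun_prop)) _ (by positivity)
  choose A hA hA2 using h
  refine ⟨⋃ m, ⋃ n, A m n, countable_iUnion fun m => countable_iUnion fun n => hA m n, ?_⟩
  intro m x y hxy
  have h3 : ∀ n : ℕ, |f (m, x) - f (m, y)| < 1 / ((n : ℝ) + 1) := fun n =>
    hA2 m n x y fun i hi => hxy i (mem_iUnion.2 ⟨m, mem_iUnion.2 ⟨n, hi⟩⟩)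
  have h4 : |f (m, x) - f (m, y)| ≤ 0 := by
    by_contra hc
    push Not at hc
    obtain ⟨n, hn⟩ := exists_nat_one_div_lt hc
    exact absurd (h3 n) (not_lt.2 hn.le)
  exact sub_eq_zero.1 (abs_nonpos_iff.1 h4)

end Pool.Agent.R816.WeakPsc
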